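import Mathlib

set_option autoImplicit false

namespace Pool.Agent.Helper858.Cube5

open Finset

/-- The dimension data of a five-dimensional subcube: `κ t T` is the dimension of the space of
linear relations among the first `x₀ + t` columns restricted to the rows in `S ∪ T`. -/
structure Kap (κ : ℤ → Finset (Fin 5) → ℤ) : Prop where
  nn : ∀ t T, 0 ≤ κ t T
  mt : ∀ t T, κ t T ≤ κ (t + 1) T
  st : ∀ t T, κ (t + 1) T ≤ κ t T + 1
  mT : ∀ t T U, T ⊆ U → κ t U ≤ κ t T
  sT : ∀ t T i, κ t T ≤ κ t (insert i T) + 1
  sm : ∀ s t, s ≤ t → ∀ T U, κ s T + κ t U ≤ κ s (T ∪ U) + κ t (T ∩ U)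
  lb : ∀ t, t ≤ 6 → ∀ T, t - (T.card : ℤ) ≤ κ t T
  o1 : ∀ t, (∀ i, κ t {i} = κ t univ) → (∀ i j, i ≠ j → κ (t + 1) {i, j} = κ t univ) →
    κ t ∅ ≠ κ t univ → (∀ i, κ (t + 1) {i} ≠ κ t univ) → False
  o2 : ∀ t, (∀ T : Finset (Fin 5), T.card = 3 → κ t T = κ t univ) →
    (∀ T : Finset (Fin 5), T.card = 4 → κ (t + 1) T = κ (t + 1) univ) →
    (∀ T : Finset (Fin 5), T.card = 3 → κ (t + 1) T ≠ κ (t + 1) univ) → False

variable {κ : ℤ → Finset (Fin 5) → ℤ}

namespace Kap

theorem pm (h : Kap κ) (t : ℤ) {T U : Finset (Fin 5)} (hTU : T ⊆ U) :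
    κ t T + κ (t + 1) U ≤ κ t U + κ (t + 1) T := by
  have := h.sm t (t + 1) (by omega) T U
  rwa [union_eq_right.2 hTU, inter_eq_left.2 hTU] at this

theorem smt (h : Kap κ) (t : ℤ) (T U : Finset (Fin 5)) :
    κ t T + κ t U ≤ κ t (T ∪ U) + κ t (T ∩ U) := h.sm t t le_rfl T U

theorem chain (h : Kap κ) (s : ℤ) (n : ℕ) (T : Finset (Fin 5)) :
    κ s T ≤ κ (s + n) T ∧ κ (s + n) T ≤ κ s T + n := by
  induction n with
  | zero => simp
  | succ n ih =>
    have h1 := h.mt (s + n) T
    have h2 := h.st (s + n) T
    push_cast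
    rw [← add_assoc]
    omega

theorem lb' (h : Kap κ) (t : ℤ) (T : Finset (Fin 5)) (n : ℤ) (hn : t - (T.card : ℤ) = n)
    (ht : t ≤ 6) : n ≤ κ t T := by
  have := h.lb t ht T
  omega

theorem s1 (h : Kap κ) (t : ℤ) (i : Fin 5) : κ t ∅ ≤ κ t {i} + 1 := by
  have := h.sT t ∅ i
  simpa using this

theorem s2 (h : Kap κ) (t : ℤ) (i j : Fin 5) : κ t {i} ≤ κ t {i, j} + 1 := by
  have := h.sT t {i} j
  rwa [pair_comm] at this

theorem s3 (h : Kap κ) (t : ℤ) (i j k : Fin 5) : κ t {i, j} ≤ κ t {i, j, k} + 1 := by
  have := h.sT t {i, j} k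
  have e : insert k ({i, j} : Finset (Fin 5)) = {i, j, k} := by
    ext a; simp only [mem_insert, mem_singleton]; tauto
  rwa [e] at this

theorem s4 (h : Kap κ) (t : ℤ) (i j k l : Fin 5) : κ t {i, j, k} ≤ κ t {i, j, k, l} + 1 := by
  have := h.sT t {i, j, k} l
  have e : insert l ({i, j, k} : Finset (Fin 5)) = {i, j, k, l} := by
    ext a; simp only [mem_insert, mem_singleton]; tauto
  rwa [e] at this

/-- accumulation of inactive elements -/
theorem acc (h : Kap κ) (t : ℤ) (U : Finset (Fin 5)) (hU : ∀ i, i ∉ U → κ t (insert i U) = κ t U)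
    (T : Finset (Fin 5)) : κ t (U ∪ T) = κ t U := by
  induction T using Finset.induction_on with
  | empty => simp
  | insert i T hi ih =>
    by_cases hiU : i ∈ U
    · rw [union_insert, insert_eq_of_mem (mem_union_left _ hiU)]
      exact ih
    · have h1 := h.smt t (U ∪ T) (insert i U)
      have h2 : (U ∪ T) ∪ insert i U = U ∪ insert i T := by
        ext a; simp only [mem_union, mem_insert]; tauto
      have h3 : (U ∪ T) ∩ insert i U = U := by
        ext a
        simp only [mem_union, mem_insert, mem_inter]
        constructor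
        · rintro ⟨h | h, h' | h'⟩
          · exact h
          · exact h
          · subst h'; exact absurd h hi
          · exact h'
        · intro h
          exact ⟨Or.inl h, Or.inr h⟩
      rw [h2, h3, ih, hU i hiU] at h1
      have h4 := h.mT t U (U ∪ insert i T) subset_union_left
      omega

theorem accU (h : Kap κ) (t : ℤ) (U : Finset (Fin 5))
    (hU : ∀ i, i ∉ U → κ t (insert i U) = κ t U) : κ t univ = κ t U := by
  have := h.acc t U hU univ
  have e : U ∪ univ = (univ : Finset (Fin 5)) := by ext a; simp
  rwa [e] at this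

theorem drop (h : Kap κ) (t : ℤ) (T : Finset (Fin 5)) : κ t ∅ ≤ κ t T + T.card := by
  induction T using Finset.induction_on with
  | empty => simp
  | insert i T hi ih =>
    have := h.sT t T i
    rw [card_insert_of_notMem hi]
    push_cast
    omega

/-- if all elements are active at the top then all are active everywhere -/
theorem conv (h : Kap κ) (t : ℤ) (hU : ∀ i, κ t univ + 1 ≤ κ t (univ \ {i}))
    (T : Finset (Fin 5)) : κ t univ + (T.card : ℤ) ≤ κ t (univ \ T) := by
  induction T using Finset.induction_on with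
  | empty => simp
  | insert i T hi ih =>
    have h1 := h.smt t (univ \ {i}) (univ \ T)
    have h2 : (univ \ {i}) ∪ (univ \ T) = (univ : Finset (Fin 5)) := by
      ext a; simp only [mem_union, mem_sdiff, mem_univ, true_and, mem_singleton, iff_true]
      by_cases ha : a = i
      · subst ha; right; exact hi
      · left; exact ha
    have h3 : (univ \ {i}) ∩ (univ \ T) = (univ : Finset (Fin 5)) \ insert i T := by
      ext a; simp
    rw [h2, h3] at h1
    rw [card_insert_of_notMem hi]
    have := hU i
    push_cast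
    omega

theorem conv0 (h : Kap κ) (t : ℤ) (hU : ∀ i, κ t univ + 1 ≤ κ t (univ \ {i})) :
    κ t univ + 5 ≤ κ t ∅ := by
  have := h.conv t hU univ
  simpa using this

end Kap

/-- membership test: the set `S ∪ T` is not selected -/
def Unhit (κ : ℤ → Finset (Fin 5) → ℤ) (s : ℕ) (T : Finset (Fin 5)) : Prop :=
  κ T.card T ≤ 1 ∧
  ((s + T.card) % 4 = 0 → κ (T.card + 1) T ≠ κ T.card T) ∧
  ((s + T.card) % 4 = 1 → ¬ (κ (T.card - 1) T ≠ κ T.card T ∧ κ (T.card + 1) T = κ T.card T)) ∧
  ((s + T.card) % 4 = 2 → κ (T.card - 1) T = κ T.card T) ∧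
  ((s + T.card) % 4 = 3 → ¬ (1 ≤ κ (T.card - 2) T ∧ 3 ≤ κ (T.card + 2) T))

theorem unhitK {s : ℕ} {T : Finset (Fin 5)} (h : Unhit κ s T) (n : ℕ) (hn : T.card = n) :
    κ n T ≤ 1 := hn ▸ h.1

theorem unhitA {s : ℕ} {T : Finset (Fin 5)} (h : Unhit κ s T) (n : ℕ) (hn : T.card = n)
    (hs : (s + n) % 4 = 0) : κ (n + 1) T ≠ κ n T := by
  subst hn; exact h.2.1 hs

theorem unhitB {s : ℕ} {T : Finset (Fin 5)} (h : Unhit κ s T) (n : ℕ) (hn : T.card = n)
    (hs : (s + n) % 4 = 1) : ¬ (κ (n - 1) T ≠ κ n T ∧ κ (n + 1) T = κ n T) := by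
  subst hn; exact h.2.2.1 hs

theorem unhitC {s : ℕ} {T : Finset (Fin 5)} (h : Unhit κ s T) (n : ℕ) (hn : T.card = n)
    (hs : (s + n) % 4 = 2) : κ (n - 1) T = κ n T := by
  subst hn; exact h.2.2.2.1 hs

theorem unhitE {s : ℕ} {T : Finset (Fin 5)} (h : Unhit κ s T) (n : ℕ) (hn : T.card = n)
    (hs : (s + n) % 4 = 3) : ¬ (1 ≤ κ (n - 2) T ∧ 3 ≤ κ (n + 2) T) := by
  subst hn; exact h.2.2.2.2 hs

theorem c4 : ∀ i : Fin 5, (univ \ {i} : Finset (Fin 5)).card = 4 := by decide
theorem c3 : ∀ i j : Fin 5, i ≠ j → (univ \ {i, j} : Finset (Fin 5)).card = 3 := by decide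
theorem ex1 : ∀ i : Fin 5, ∃ j, i ≠ j := by decide
theorem ex3 : ∀ i j : Fin 5, ∃ k, k ≠ i ∧ k ≠ j := by decide
theorem ex4 : ∀ i j k : Fin 5, ∃ l, l ≠ i ∧ l ≠ j ∧ l ≠ k := by decide
theorem t4 : ∀ T : Finset (Fin 5), T.card = 4 → ∃ i, T = univ \ {i} := by decide
theorem t3 : ∀ T : Finset (Fin 5), T.card = 3 → ∃ i j, i ≠ j ∧ {i, j} ⊆ T := by decide
theorem t3n : ∀ T : Finset (Fin 5), T.card = 3 → ∃ i, i ∉ T := by decide
theorem t43 : ∀ T : Finset (Fin 5), T.card = 4 → ∃ U ⊆ T, U.card = 3 := by decide
theorem card3 {i j k : Fin 5} (h1 : i ≠ j) (h2 : i ≠ k) (h3 : j ≠ k) :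
    ({i, j, k} : Finset (Fin 5)).card = 3 := card_eq_three.2 ⟨i, j, k, h1, h2, h3, rfl⟩
theorem card4 {i j k l : Fin 5} (h1 : i ≠ j) (h2 : i ≠ k) (h3 : i ≠ l) (h4 : j ≠ k) (h5 : j ≠ l)
    (h6 : k ≠ l) : ({i, j, k, l} : Finset (Fin 5)).card = 4 := by
  rw [card_insert_of_notMem (by simp [h1, h2, h3]), card3 h4 h5 h6]
theorem e_ins1 : ∀ i : Fin 5, insert i (univ \ {i}) = (univ : Finset (Fin 5)) := by decide
theorem e_sub2 : ∀ i j : Fin 5, (univ \ {i, j} : Finset (Fin 5)) ⊆ univ \ {i} := by decide
theorem e_ins2 : ∀ i j : Fin 5, i ≠ j →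
    insert i (univ \ {i, j}) = (univ \ {j} : Finset (Fin 5)) := by decide
theorem e_un : ∀ i j : Fin 5, i ≠ j → (univ \ {i}) ∪ (univ \ {j}) = (univ : Finset (Fin 5)) := by
  decide
theorem e_in : ∀ i j : Fin 5, (univ \ {i}) ∩ (univ \ {j}) = (univ \ {i, j} : Finset (Fin 5)) := by
  decide

theorem case0 (h : Kap κ) (s : ℕ) (hs : s % 4 = 0) (hun : ∀ T, Unhit κ s T) : False := by
  -- level 0
  have k0 : κ 0 ∅ ≤ 1 := by simpa using unhitK (hun ∅) 0 (by simp)
  have A0 : κ 1 ∅ ≠ κ 0 ∅ := by simpa using unhitA (hun ∅) 0 (by simp) (by omega)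
  -- level 1
  have k1 : ∀ i, κ 1 {i} ≤ 1 := fun i => by simpa using unhitK (hun {i}) 1 (by simp)
  have B1 : ∀ i, ¬ (κ 0 {i} ≠ κ 1 {i} ∧ κ 2 {i} = κ 1 {i}) := fun i => by
    simpa using unhitB (hun {i}) 1 (by simp) (by omega)
  -- level 2
  have k2 : ∀ i j, i ≠ j → κ 2 {i, j} ≤ 1 := fun i j hij => by
    simpa using unhitK (hun {i, j}) 2 (card_pair hij)
  have C2 : ∀ i j, i ≠ j → κ 1 {i, j} = κ 2 {i, j} := fun i j hij => by
    have := unhitC (hun {i, j}) 2 (card_pair hij) (by omega)
    norm_num at this
    exact this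
  -- level 4
  have k4 : ∀ i, κ 4 (univ \ {i}) ≤ 1 := fun i => by
    simpa using unhitK (hun (univ \ {i})) 4 (c4 i)
  have A4 : ∀ i, κ 5 (univ \ {i}) ≠ κ 4 (univ \ {i}) := fun i => by
    have := unhitA (hun (univ \ {i})) 4 (c4 i) (by omega)
    norm_num at this
    exact this
  have k5 : κ 5 univ ≤ 1 := by
    simpa using unhitK (hun univ) 5 (by simp)
  have n0 := h.nn 0 ∅
  have m0 := h.mt 0 ∅
  have s0 := h.st 0 ∅
  have m1 := h.mt 1 ∅
  have s1 := h.st 1 ∅
  have l2 : 2 ≤ κ 2 ∅ := h.lb' 2 ∅ 2 (by simp) (by norm_num)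
  norm_num at m0 s0 m1 s1
  have m1i : ∀ i, κ 1 {i} ≤ κ 2 {i} ∧ κ 2 {i} ≤ κ 1 {i} + 1 := by
    intro i
    have h1 := h.mt 1 {i}
    have h2 := h.st 1 {i}
    norm_num at h1 h2
    exact ⟨h1, h2⟩
  rcases (show κ 0 ∅ = 0 ∨ κ 0 ∅ = 1 by omega) with h0 | h0
  · have h1 : κ 1 ∅ = 1 := by omega
    have key : ∀ i, κ 1 {i} = 1 → κ 2 {i} = 2 := by
      intro i hi
      have e1 := h.mT 0 ∅ {i} (by simp)
      have e2 := h.nn 0 {i}
      have e3 := B1 i
      have e4 := m1i i
      by_contra hne
      exact e3 ⟨by omega, by omega⟩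
    have h1i : ∀ i, κ 1 {i} = 0 := by
      intro i
      by_contra hne
      have hi : κ 1 {i} = 1 := by
        have := h.nn 1 {i}
        have := k1 i
        omega
      obtain ⟨j, hij⟩ := ex1 i
      have e1 := key i hi
      have e2 := h.s2 2 i j
      have e3 := k2 i j hij
      have e4 := C2 i j hij
      have e5 := h.mT 1 {j} {i, j} (by intro a; simp; tauto)
      have e6 := k1 j
      have e7 := key j (by omega)
      have e8 := h.smt 2 {i} {j}
      have e9 : ({i} : Finset (Fin 5)) ∪ {j} = {i, j} := by ext a; simp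
      have e10 : ({i} : Finset (Fin 5)) ∩ {j} = ∅ := by
        rw [← disjoint_iff_inter_eq_empty]; simpa using hij
      rw [e9, e10] at e8
      omega
    have hu : κ 1 univ = 0 := by
      have := h.mT 1 {0} univ (subset_univ _)
      have := h.nn 1 univ
      have := h1i 0
      omega
    apply h.o1 1
    · intro i; rw [h1i, hu]
    · intro i j hij
      norm_num
      have e1 := C2 i j hij
      have e2 := h.mT 1 {i} {i, j} (by intro a; simp; tauto)
      have e3 := h1i i
      have e4 := h.nn 1 {i, j}
      omega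
    · omega
    · intro i
      norm_num
      have := h.lb' 2 {i} 1 (by simp) (by norm_num)
      omega
  · have h1 : κ 1 ∅ = 2 := by omega
    have h1i : ∀ i, κ 1 {i} = 1 := by
      intro i
      have := h.s1 1 i
      have := k1 i
      omega
    rcases (show κ 2 ∅ = 2 ∨ κ 2 ∅ = 3 by omega) with h2 | h2
    · have h0i : ∀ i, κ 0 {i} = 1 := by
        intro i
        have e1 := h.pm 1 (empty_subset {i})
        norm_num at e1
        have e2 := h1i i
        have e3 := B1 i
        have e4 := m1i i
        by_contra hne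
        exact e3 ⟨by omega, by omega⟩
      have h0u : κ 0 univ = 1 := by
        have := h.accU 0 ∅ (by intro i _; simpa [h0] using h0i i)
        omega
      have h4u : 1 ≤ κ 4 univ := by
        have := (h.chain 0 4 univ).1
        norm_num at this
        omega
      have h5i : ∀ i, κ 5 univ + 1 ≤ κ 5 (univ \ {i}) := by
        intro i
        have e1 := A4 i
        have e2 := h.mt 4 (univ \ {i})
        norm_num at e2
        have e3 := h.mT 4 (univ \ {i}) univ (subset_univ _)
        omega
      have e1 := h.conv0 5 h5i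
      have e2 := (h.chain 2 3 ∅).2
      have e3 := h.mt 4 univ
      norm_num at e2 e3
      omega
    · have h2i : ∀ i, 2 ≤ κ 2 {i} := by
        intro i
        have := h.s1 2 i
        omega
      have h2ij : ∀ i j, i ≠ j → κ 2 {i, j} = 1 := by
        intro i j hij
        have := h.s2 2 i j
        have := k2 i j hij
        have := h2i i
        omega
      have hu : κ 1 univ = 1 := by
        have := h.accU 1 {0} (by
          intro i hi
          have hi' : i ≠ 0 := by simpa using hi
          have := C2 i 0 hi'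
          rw [this, h2ij i 0 hi', h1i])
        rw [this, h1i]
      apply h.o1 1
      · intro i; rw [h1i, hu]
      · intro i j hij
        norm_num
        rw [h2ij i j hij, hu]
      · omega
      · intro i
        norm_num
        have := h2i i
        omega

theorem case1 (h : Kap κ) (s : ℕ) (hs : s % 4 = 1) (hun : ∀ T, Unhit κ s T) : False := by
  have k0 : κ 0 ∅ ≤ 1 := by simpa using unhitK (hun ∅) 0 (by simp)
  have k1 : ∀ i, κ 1 {i} ≤ 1 := fun i => by simpa using unhitK (hun {i}) 1 (by simp)
  have C1 : ∀ i, κ 0 {i} = κ 1 {i} := fun i => by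
    simpa using unhitC (hun {i}) 1 (by simp) (by omega)
  have k3 : ∀ T : Finset (Fin 5), T.card = 3 → κ 3 T ≤ 1 := fun T hT => by
    simpa using unhitK (hun T) 3 hT
  have A3 : ∀ T : Finset (Fin 5), T.card = 3 → κ 4 T = κ 3 T + 1 := fun T hT => by
    have e1 := unhitA (hun T) 3 hT (by omega)
    have e2 := h.mt 3 T
    have e3 := h.st 3 T
    norm_num at e1 e2 e3
    omega
  have k4 : ∀ T : Finset (Fin 5), T.card = 4 → κ 4 T ≤ 1 := fun T hT => by
    simpa using unhitK (hun T) 4 hT
  have B4 : ∀ T : Finset (Fin 5), T.card = 4 → κ 3 T = κ 4 T ∨ κ 5 T ≠ κ 4 T := fun T hT => by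
    have e1 := unhitB (hun T) 4 hT (by omega)
    norm_num at e1
    by_cases hh : κ 3 T = κ 4 T
    · exact Or.inl hh
    · exact Or.inr (e1 hh)
  have k5 : κ 5 univ ≤ 1 := by
    simpa using unhitK (hun univ) 5 (by simp)
  have C5 : κ 4 univ = κ 5 univ := by
    have := unhitC (hun univ) 5 (by simp) (by omega)
    norm_num at this
    exact this
  have n5 := h.nn 5 univ
  have n3 := h.nn 3 univ
  have m3 := h.mt 3 univ
  norm_num at m3
  rcases (show κ 5 univ = 0 ∨ κ 5 univ = 1 by omega) with h5 | h5
  · have h4i : ∀ i, κ 4 (univ \ {i}) = 0 := by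
      have e5 : ∀ i, κ 5 (univ \ {i}) ≤ 1 := by
        intro i
        have := h.sT 5 (univ \ {i}) i
        rw [e_ins1] at this
        omega
      have key : ∀ i, κ 4 (univ \ {i}) = 1 → κ 3 (univ \ {i}) = 1 := by
        intro i hi
        have e1 := B4 _ (c4 i)
        have e2 := e5 i
        have e3 := h.mt 4 (univ \ {i})
        norm_num at e3
        rcases e1 with e1 | e1 <;> omega
      intro i
      by_contra hne
      have hi : κ 4 (univ \ {i}) = 1 := by
        have := h.nn 4 (univ \ {i})
        have := k4 _ (c4 i)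
        omega
      obtain ⟨j, hij⟩ := ex1 i
      have g1 := key i hi
      have g2 := h.mT 3 (univ \ {i, j}) (univ \ {i}) (e_sub2 i j)
      have g3 := k3 _ (c3 i j hij)
      have g4 := A3 _ (c3 i j hij)
      have g5 := h.sT 4 (univ \ {i, j}) i
      rw [e_ins2 i j hij] at g5
      have g6 := k4 _ (c4 j)
      have g7 := key j (by omega)
      have g8 := h.smt 3 (univ \ {i}) (univ \ {j})
      rw [e_un i j hij, e_in] at g8
      omega
    have h4T : ∀ T : Finset (Fin 5), T.card = 4 → κ 4 T = 0 := by
      intro T hT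
      obtain ⟨i, rfl⟩ := t4 T hT
      exact h4i i
    have h3T : ∀ T : Finset (Fin 5), T.card = 3 → κ 3 T = 0 := by
      intro T hT
      obtain ⟨i, hi⟩ := t3n T hT
      have e1 := h.sT 4 T i
      have e2 := h4T (insert i T) (by rw [card_insert_of_notMem hi, hT])
      have e3 := A3 T hT
      have e4 := h.nn 3 T
      omega
    apply h.o2 3
    · intro T hT
      have := h3T T hT
      omega
    · intro T hT
      norm_num
      have := h4T T hT
      omega
    · intro T hT
      norm_num
      have := h3T T hT
      have := A3 T hT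
      omega
  · have h4T : ∀ T : Finset (Fin 5), T.card = 4 → κ 4 T = 1 := by
      intro T hT
      have := k4 T hT
      have := h.mT 4 T univ (subset_univ _)
      omega
    rcases (show κ 3 univ = 0 ∨ κ 3 univ = 1 by omega) with h3 | h3
    · have h5i : ∀ i, κ 5 univ + 1 ≤ κ 5 (univ \ {i}) := by
        intro i
        have e1 := h.pm 3 (subset_univ (univ \ {i}))
        norm_num at e1
        have e2 := h4T _ (c4 i)
        have e3 := h.nn 3 (univ \ {i})
        have e4 := B4 _ (c4 i)
        have e5 := h.mt 4 (univ \ {i})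
        norm_num at e5
        rcases e4 with e4 | e4 <;> omega
      have e1 := h.conv0 5 h5i
      have e2 := (h.chain 0 5 ∅).2
      have e3 := (h.chain 1 4 ∅).2
      norm_num at e2 e3
      have h0 : κ 0 ∅ = 1 := by omega
      have h0i : ∀ i, κ 0 {i} = 1 := by
        intro i
        have f1 := h.s1 1 i
        have f2 := k1 i
        have f3 := C1 i
        omega
      have h0u : κ 0 univ = 1 := by
        have := h.accU 0 ∅ (by intro i _; simpa [h0] using h0i i)
        omega
      have e4 := (h.chain 0 3 univ).1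
      norm_num at e4
      omega
    · have h3T : ∀ T : Finset (Fin 5), T.card = 3 → κ 3 T = 1 := by
        intro T hT
        have := k3 T hT
        have := h.mT 3 T univ (subset_univ _)
        omega
      apply h.o2 3
      · intro T hT
        have := h3T T hT
        omega
      · intro T hT
        norm_num
        have := h4T T hT
        omega
      · intro T hT
        norm_num
        have := h3T T hT
        have := A3 T hT
        omega

theorem s_un2 (i j : Fin 5) : ({i} : Finset (Fin 5)) ∪ {j} = {i, j} := by ext a; simp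
theorem s_in2 {i j : Fin 5} (hij : i ≠ j) : ({i} : Finset (Fin 5)) ∩ {j} = ∅ := by
  rw [← disjoint_iff_inter_eq_empty]; simpa using hij
theorem s_un3 (i j k : Fin 5) : ({i, j} : Finset (Fin 5)) ∪ {i, k} = {i, j, k} := by
  ext a; simp only [mem_union, mem_insert, mem_singleton]; tauto
theorem s_in3 : ∀ i j k : Fin 5, j ≠ k → ({i, j} : Finset (Fin 5)) ∩ {i, k} = {i} := by decide

theorem case2 (h : Kap κ) (s : ℕ) (hs : s % 4 = 2) (hun : ∀ T, Unhit κ s T) : False := by
  have k0 : κ 0 ∅ ≤ 1 := by simpa using unhitK (hun ∅) 0 (by simp)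
  have C0 : κ (-1) ∅ = κ 0 ∅ := by simpa using unhitC (hun ∅) 0 (by simp) (by omega)
  have k1 : ∀ i, κ 1 {i} ≤ 1 := fun i => by simpa using unhitK (hun {i}) 1 (by simp)
  have E1 : ∀ i, ¬ (1 ≤ κ (-1) {i} ∧ 3 ≤ κ 3 {i}) := fun i => by
    have := unhitE (hun {i}) 1 (by simp) (by omega)
    norm_num at this
    intro hh
    have := this hh.1
    omega
  have k2 : ∀ i j, i ≠ j → κ 2 {i, j} ≤ 1 := fun i j hij => by
    simpa using unhitK (hun {i, j}) 2 (card_pair hij)
  have A2 : ∀ i j, i ≠ j → κ 3 {i, j} = κ 2 {i, j} + 1 := fun i j hij => by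
    have e1 := unhitA (hun {i, j}) 2 (card_pair hij) (by omega)
    have e2 := h.mt 2 {i, j}
    have e3 := h.st 2 {i, j}
    norm_num at e1 e2 e3
    omega
  have k3 : ∀ T : Finset (Fin 5), T.card = 3 → κ 3 T ≤ 1 := fun T hT => by
    simpa using unhitK (hun T) 3 hT
  have B3 : ∀ T : Finset (Fin 5), T.card = 3 → κ 2 T = κ 3 T ∨ κ 4 T = κ 3 T + 1 := fun T hT => by
    have e1 := unhitB (hun T) 3 hT (by omega)
    have e2 := h.mt 3 T
    have e3 := h.st 3 T
    norm_num at e1 e2 e3
    by_cases hh : κ 2 T = κ 3 T
    · exact Or.inl hh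
    · right
      have := e1 hh
      omega
  have k4 : ∀ T : Finset (Fin 5), T.card = 4 → κ 4 T ≤ 1 := fun T hT => by
    simpa using unhitK (hun T) 4 hT
  have C4 : ∀ T : Finset (Fin 5), T.card = 4 → κ 3 T = κ 4 T := fun T hT => by
    have := unhitC (hun T) 4 hT (by omega)
    norm_num at this
    exact this
  have l2 : 2 ≤ κ 2 ∅ := h.lb' 2 ∅ 2 (by simp) (by norm_num)
  have ch02 := (h.chain 0 2 ∅).2
  have ch01 := h.st 0 ∅
  have ch12 := h.st 1 ∅
  have ch23 := h.st 2 ∅
  have ch34 := h.st 3 ∅
  have l4 : 4 ≤ κ 4 ∅ := h.lb' 4 ∅ 4 (by simp) (by norm_num)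
  norm_num at ch02 ch01 ch12 ch23 ch34
  have h32 : κ 3 ∅ = κ 2 ∅ + 1 := by
    have e1 := h.pm 2 (empty_subset {0, 1})
    have e2 := A2 0 1 (by decide)
    norm_num at e1
    omega
  rcases (show κ 2 ∅ = 2 ∨ κ 2 ∅ = 3 by omega) with h2 | h2
  · by_cases hall : ∀ i j, i ≠ j → κ 2 {i, j} = 0
    · have h2T : ∀ T : Finset (Fin 5), T.card = 3 → κ 2 T = 0 := by
        intro T hT
        obtain ⟨i, j, hij, hsub⟩ := t3 T hT
        have e1 := h.mT 2 _ _ hsub
        have e2 := hall i j hij
        have e3 := h.nn 2 T
        omega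
      have h3T : ∀ T : Finset (Fin 5), T.card = 3 → κ 3 T = 0 := by
        by_contra hne
        push Not at hne
        obtain ⟨T, hT, hT3⟩ := hne
        have e1 := k3 T hT
        have e2 := h.nn 3 T
        have e3 : κ 3 T = 1 := by omega
        have e4 : κ 4 T = 2 := by
          have := h2T T hT
          rcases B3 T hT with hb | hb <;> omega
        have hu : κ 3 univ = 1 := by
          have := h.accU 3 T (by
            intro l hl
            have hc : (insert l T).card = 4 := by rw [card_insert_of_notMem hl, hT]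
            have f1 := h.sT 4 T l
            have f2 := k4 _ hc
            have f3 := C4 _ hc
            omega)
          omega
        have g4 : ∀ T' : Finset (Fin 5), T'.card = 3 → κ 4 T' = 2 := by
          intro T' hT'
          have f1 := h.mT 3 T' univ (subset_univ _)
          have f2 := k3 T' hT'
          have f3 := h2T T' hT'
          rcases B3 T' hT' with hb | hb <;> omega
        have q1 := g4 {0, 1, 2} (by decide)
        have q2 := g4 {0, 1, 3} (by decide)
        have q3 := h.smt 4 {0, 1, 2} {0, 1, 3}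
        have q4 : ({0, 1, 2} : Finset (Fin 5)) ∪ {0, 1, 3} = {0, 1, 2, 3} := by decide
        have q5 : ({0, 1, 2} : Finset (Fin 5)) ∩ {0, 1, 3} = {0, 1} := by decide
        rw [q4, q5] at q3
        have q6 := k4 {0, 1, 2, 3} (by decide)
        have q7 := A2 0 1 (by decide)
        have q8 := hall 0 1 (by decide)
        have q9 := h.st 3 {0, 1}
        norm_num at q9
        omega
      apply h.o2 3
      · intro T hT
        have f1 := h3T T hT
        have f2 := h.mT 3 T univ (subset_univ _)
        have f3 := h.nn 3 univ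
        omega
      · intro T hT
        norm_num
        obtain ⟨U, hU, hUc⟩ := t43 T hT
        have f1 := h3T U hUc
        have f2 := h.mT 3 U T hU
        have f3 := h.nn 3 T
        have f4 := C4 T hT
        have f5 := h.mT 4 T univ (subset_univ _)
        have f6 := h.nn 4 univ
        omega
      · intro T hT
        norm_num
        obtain ⟨i, hi⟩ := t3n T hT
        have hc : (insert i T).card = 4 := by rw [card_insert_of_notMem hi, hT]
        have f1 := h3T T hT
        have f2 := h.mT 3 T (insert i T) (subset_insert _ _)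
        have f3 := h.nn 3 (insert i T)
        have f4 := C4 _ hc
        have f5 := h.mT 4 (insert i T) univ (subset_univ _)
        have f6 := h.nn 4 univ
        have f7 := h.lb' 4 T 1 (by rw [hT]; norm_num) (by norm_num)
        omega
    · push Not at hall
      -- an exceptional pair with a good first element
      have hex : ∃ i j, i ≠ j ∧ κ 2 {i, j} = 1 ∧ κ 2 {i} = 1 := by
        obtain ⟨i, j, hij, hne⟩ := hall
        have f1 := k2 i j hij
        have f2 := h.nn 2 {i, j}
        have f3 : κ 2 {i, j} = 1 := by omega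
        have f4 := h.smt 2 {i} {j}
        rw [s_un2, s_in2 hij] at f4
        have f5 := h.mT 2 {i} {i, j} (by intro a; simp; tauto)
        have f6 := h.mT 2 {j} {i, j} (by intro a; simp; tauto)
        rcases (show κ 2 {i} = 1 ∨ κ 2 {j} = 1 by omega) with f7 | f7
        · exact ⟨i, j, hij, f3, f7⟩
        · exact ⟨j, i, hij.symm, by rwa [pair_comm], f7⟩
      obtain ⟨i, j, hij, hp, hi⟩ := hex
      have hp3 := A2 i j hij
      have hi3 : κ 3 {i} = 2 := by
        have f1 := h.mT 3 {i} {i, j} (by intro a; simp; tauto)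
        have f2 := h.st 2 {i}
        norm_num at f2
        omega
      by_cases hk : ∃ k, k ≠ i ∧ k ≠ j ∧ κ 2 {i, j, k} = 0
      · obtain ⟨k, hki, hkj, hk2⟩ := hk
        have c1 := card3 hij hki.symm hkj.symm
        have f1 := h.s3 3 i j k
        have f2 := k3 _ c1
        have f3 : κ 3 {i, j, k} = 1 := by omega
        have f4 : κ 4 {i, j, k} = 2 := by
          rcases B3 _ c1 with hb | hb <;> omega
        obtain ⟨l, hli, hlj, hlk⟩ := ex4 i j k
        have c2 := card4 hij hki.symm hli.symm hkj.symm hlj.symm hlk.symm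
        have f5 := h.s4 4 i j k l
        have f6 := k4 _ c2
        have f7 := C4 _ c2
        have f8 := h.smt 2 {i, j} {i, k}
        rw [s_un3, s_in3 i j k hkj.symm] at f8
        have f9 := h.nn 2 {i, k}
        have f10 := A2 i k hki.symm
        have c3 := card3 hki.symm hli.symm hlk.symm
        have f11 := h.mT 3 {i, k, l} {i, j, k, l} (by intro a; simp; tauto)
        have f12 := k3 _ c3
        have f13 := h.mT 2 {i, k} {i, k, l} (by intro a; simp; tauto)
        have f14 := h.nn 2 {i, k, l}
        have f15 : κ 4 {i, k, l} = 2 := by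
          rcases B3 _ c3 with hb | hb <;> omega
        have f16 := h.smt 4 {i, j, k} {i, k, l}
        have u1 : ({i, j, k} : Finset (Fin 5)) ∪ {i, k, l} = {i, j, k, l} := by
          ext a; simp only [mem_union, mem_insert, mem_singleton]; tauto
        have u2 : ({i, j, k} : Finset (Fin 5)) ∩ {i, k, l} = {i, k} := by
          ext a
          simp only [mem_inter, mem_insert, mem_singleton]
          constructor
          · rintro ⟨h1 | h1 | h1, h2 | h2 | h2⟩
            · exact Or.inl h1
            · exact Or.inl h1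
            · exact Or.inl h1
            · exact Or.inl h2
            · exact Or.inr h2
            · exact absurd (h2.symm.trans h1) hlj
            · exact Or.inr h1
            · exact Or.inr h1
            · exact Or.inr h1
          · rintro (h1 | h1)
            · exact ⟨Or.inl h1, Or.inl h1⟩
            · exact ⟨Or.inr (Or.inr h1), Or.inr (Or.inl h1)⟩
        rw [u1, u2] at f16
        have f17 := h.st 3 {i, k}
        norm_num at f17
        omega
      · push Not at hk
        have hu2 : κ 2 univ = 1 := by
          have := h.accU 2 {i, j} (by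
            intro k hkn
            have hki : k ≠ i := by intro hh; apply hkn; simp [hh]
            have hkj : k ≠ j := by intro hh; apply hkn; simp [hh]
            have e : insert k ({i, j} : Finset (Fin 5)) = {i, j, k} := by
              ext a; simp only [mem_insert, mem_singleton]; tauto
            rw [e]
            have f1 := hk k hki hkj
            have f2 := h.mT 2 {i, j} {i, j, k} (by intro a; simp; tauto)
            have f3 := h.nn 2 {i, j, k}
            omega)
          omega
        have hu3 : κ 3 univ = 2 := by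
          have := h.accU 3 {i} (by
            intro k hkn
            have hki : k ≠ i := by simpa using hkn
            have f1 := k2 k i hki
            have f2 := h.mT 2 {k, i} univ (subset_univ _)
            have f3 := A2 k i hki
            show κ 3 {k, i} = κ 3 {i}
            omega)
          omega
        have f1 := h.mT 3 {0, 1, 2} univ (subset_univ _)
        have f2 := k3 {0, 1, 2} (by decide)
        omega
  · have h0 : κ 0 ∅ = 1 := by omega
    have h1 : κ 1 ∅ = 2 := by omega
    have h1i : ∀ i, κ 1 {i} = 1 := by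
      intro i
      have := h.s1 1 i
      have := k1 i
      omega
    have h2i : ∀ i, κ 2 {i} = 2 := by
      intro i
      have f1 := h.s1 2 i
      have f2 := h.st 1 {i}
      have f3 := h1i i
      norm_num at f2
      omega
    have h2ij : ∀ i j, i ≠ j → κ 2 {i, j} = 1 := by
      intro i j hij
      have := h.s2 2 i j
      have := h2i i
      have := k2 i j hij
      omega
    have h3T : ∀ T : Finset (Fin 5), T.card = 3 → κ 3 T = 1 := by
      intro T hT
      have := h.drop 3 T
      have := k3 T hT
      rw [hT] at *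
      push_cast at *
      omega
    rcases (show κ 4 ∅ = 4 ∨ κ 4 ∅ = 5 by omega) with h4 | h4
    · have h2T : ∀ T : Finset (Fin 5), T.card = 3 → κ 2 T = 1 := by
        intro T hT
        have f1 := h.pm 3 (empty_subset T)
        have f2 := h3T T hT
        norm_num at f1
        rcases B3 T hT with hb | hb <;> omega
      have hu2 : κ 2 univ = 1 := by
        have := h.accU 2 {0, 1} (by
          intro k hkn
          have : (insert k ({0, 1} : Finset (Fin 5))).card = 3 := by
            rw [card_insert_of_notMem hkn]; rfl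
          rw [h2T _ this, h2ij 0 1 (by decide)])
        rw [this, h2ij 0 1 (by decide)]
      have n1 := h.nn 1 univ
      have m1 := h.mT 1 {0} univ (subset_univ _)
      have m2 := h1i 0
      rcases (show κ 1 univ = 0 ∨ κ 1 univ = 1 by omega) with hu1 | hu1
      · have h1ij : ∀ i j, i ≠ j → κ 1 {i, j} = 0 := by
          intro i j hij
          have f1 := h.pm 1 (subset_univ {i, j})
          norm_num at f1
          have f2 := h2ij i j hij
          have f3 := h.nn 1 {i, j}
          omega
        have h0i : ∀ i, κ 0 {i} = 0 := by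
          intro i
          by_contra hne
          have f1 := h.nn 0 {i}
          have f2 := h.pm (-1) (empty_subset {i})
          norm_num at f2
          have f3 := h.s1 3 i
          exact E1 i ⟨by omega, by omega⟩
        have hu0 : κ 0 univ = 0 := by
          have f1 := h.nn 0 univ
          have f2 := h.mT 0 {0} univ (subset_univ _)
          have f3 := h0i 0
          omega
        apply h.o1 0
        · intro i; rw [h0i, hu0]
        · intro i j hij
          norm_num
          rw [h1ij i j hij, hu0]
        · omega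
        · intro i
          norm_num
          have := h1i i
          omega
      · apply h.o1 1
        · intro i; rw [h1i, hu1]
        · intro i j hij
          norm_num
          rw [h2ij i j hij, hu1]
        · omega
        · intro i
          norm_num
          have := h2i i
          omega
    · have h4T : ∀ T : Finset (Fin 5), T.card = 4 → κ 4 T = 1 := by
        intro T hT
        have := h.drop 4 T
        have := k4 T hT
        rw [hT] at *
        push_cast at *
        omega
      have hu3 : κ 3 univ = 1 := by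
        have := h.accU 3 {0, 1, 2} (by
          intro k hkn
          have hc : (insert k ({0, 1, 2} : Finset (Fin 5))).card = 4 := by
            rw [card_insert_of_notMem hkn]; rfl
          rw [C4 _ hc, h4T _ hc, h3T {0, 1, 2} (by decide)])
        rw [this, h3T {0, 1, 2} (by decide)]
      have hu4 : κ 4 univ = 1 := by
        have f1 := h.mt 3 univ
        norm_num at f1
        have f2 := h.mT 4 {0, 1, 2, 3} univ (subset_univ _)
        have f3 := h4T {0, 1, 2, 3} (by decide)
        omega
      apply h.o2 3
      · intro T hT; rw [h3T T hT, hu3]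
      · intro T hT
        norm_num
        rw [h4T T hT, hu4]
      · intro T hT
        norm_num
        have := h.drop 4 T
        rw [hT] at this
        push_cast at this
        omega

theorem case3 (h : Kap κ) (s : ℕ) (hs : s % 4 = 3) (hun : ∀ T, Unhit κ s T) : False := by
  have k0 : κ 0 ∅ ≤ 1 := by simpa using unhitK (hun ∅) 0 (by simp)
  have k1 : ∀ i, κ 1 {i} ≤ 1 := fun i => by simpa using unhitK (hun {i}) 1 (by simp)
  have A1 : ∀ i, κ 2 {i} = κ 1 {i} + 1 := fun i => by
    have e1 := unhitA (hun {i}) 1 (by simp) (by omega)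
    have e2 := h.mt 1 {i}
    have e3 := h.st 1 {i}
    norm_num at e1 e2 e3
    omega
  have k2 : ∀ i j, i ≠ j → κ 2 {i, j} ≤ 1 := fun i j hij => by
    simpa using unhitK (hun {i, j}) 2 (card_pair hij)
  have B2 : ∀ i j, i ≠ j → κ 1 {i, j} = κ 2 {i, j} ∨ κ 3 {i, j} = κ 2 {i, j} + 1 :=
    fun i j hij => by
    have e1 := unhitB (hun {i, j}) 2 (card_pair hij) (by omega)
    have e2 := h.mt 2 {i, j}
    have e3 := h.st 2 {i, j}
    norm_num at e1 e2 e3
    by_cases hh : κ 1 {i, j} = κ 2 {i, j}
    · exact Or.inl hh
    · right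
      have := e1 hh
      omega
  have k3 : ∀ T : Finset (Fin 5), T.card = 3 → κ 3 T ≤ 1 := fun T hT => by
    simpa using unhitK (hun T) 3 hT
  have C3 : ∀ T : Finset (Fin 5), T.card = 3 → κ 2 T = κ 3 T := fun T hT => by
    have := unhitC (hun T) 3 hT (by omega)
    norm_num at this
    exact this
  have k4 : ∀ T : Finset (Fin 5), T.card = 4 → κ 4 T ≤ 1 := fun T hT => by
    simpa using unhitK (hun T) 4 hT
  have E4 : ∀ T : Finset (Fin 5), T.card = 4 → ¬ (1 ≤ κ 2 T ∧ 3 ≤ κ 6 T) := fun T hT => by
    have := unhitE (hun T) 4 hT (by omega)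
    norm_num at this
    intro hh
    have := this hh.1
    omega
  have k5 : κ 5 univ ≤ 1 := by
    simpa using unhitK (hun univ) 5 (by simp)
  have A5 : κ 6 univ = κ 5 univ + 1 := by
    have e1 := unhitA (hun univ) 5 (by simp) (by omega)
    have e2 := h.mt 5 univ
    have e3 := h.st 5 univ
    norm_num at e1 e2 e3
    omega
  have l1 : 1 ≤ κ 1 ∅ := h.lb' 1 ∅ 1 (by simp) (by norm_num)
  have ch01 := h.st 0 ∅
  have ch12 := h.st 1 ∅
  have mo12 := h.mt 1 ∅
  have ch23 := h.st 2 ∅
  have ch34 := h.st 3 ∅
  have l3 : 3 ≤ κ 3 ∅ := h.lb' 3 ∅ 3 (by simp) (by norm_num)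
  have l4 : 4 ≤ κ 4 ∅ := h.lb' 4 ∅ 4 (by simp) (by norm_num)
  norm_num at ch01 ch12 mo12 ch23 ch34
  have h21 : κ 2 ∅ = κ 1 ∅ + 1 := by
    have e1 := h.pm 1 (empty_subset {0})
    have e2 := A1 0
    norm_num at e1
    omega
  rcases (show κ 1 ∅ = 1 ∨ κ 1 ∅ = 2 by omega) with h1 | h1
  · by_cases hall : ∀ i j, i ≠ j → κ 2 {i, j} = 0
    · have h2i : ∀ i, κ 2 {i} = 1 := by
        intro i
        obtain ⟨j, hij⟩ := ex1 i
        have f1 := h.s2 2 i j
        have f2 := hall i j hij
        have f3 := h.lb' 2 {i} 1 (by simp) (by norm_num)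
        omega
      have h1i : ∀ i, κ 1 {i} = 0 := by
        intro i
        have := A1 i
        have := h2i i
        omega
      have hu : κ 1 univ = 0 := by
        have f1 := h.nn 1 univ
        have f2 := h.mT 1 {0} univ (subset_univ _)
        have f3 := h1i 0
        omega
      apply h.o1 1
      · intro i; rw [h1i, hu]
      · intro i j hij
        norm_num
        rw [hall i j hij, hu]
      · omega
      · intro i
        norm_num
        have := h2i i
        omega
    · push Not at hall
      have hex : ∃ i j, i ≠ j ∧ κ 2 {i, j} = 1 ∧ κ 1 {i} = 0 := by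
        obtain ⟨i, j, hij, hne⟩ := hall
        have f1 := k2 i j hij
        have f2 := h.nn 2 {i, j}
        have f3 : κ 2 {i, j} = 1 := by omega
        have f4 := h.smt 2 {i} {j}
        rw [s_un2, s_in2 hij] at f4
        have f5 := A1 i
        have f6 := A1 j
        have f7 := h.nn 1 {i}
        have f8 := h.nn 1 {j}
        have f9 := k1 i
        have f10 := k1 j
        rcases (show κ 1 {i} = 0 ∨ κ 1 {j} = 0 by omega) with f11 | f11
        · exact ⟨i, j, hij, f3, f11⟩
        · exact ⟨j, i, hij.symm, by rwa [pair_comm], f11⟩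
      obtain ⟨i, j, hij, hp, hi⟩ := hex
      have hi2 := A1 i
      obtain ⟨k, hki, hkj⟩ := ex3 i j
      have f1 := h.mT 1 {i} {i, j} (by intro a; simp; tauto)
      have f2 := h.nn 1 {i, j}
      have f3 : κ 3 {i, j} = 2 := by
        rcases B2 i j hij with hb | hb <;> omega
      have c1 := card3 hij hki.symm hkj.symm
      have f4 := h.s3 3 i j k
      have f5 := k3 _ c1
      have f6 := C3 _ c1
      have f7 := h.mT 2 {i, k} {i, j, k} (by intro a; simp; tauto)
      have f8 := k2 i k hki.symm
      have f9 := h.mT 1 {i} {i, k} (by intro a; simp; tauto)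
      have f10 := h.nn 1 {i, k}
      have f11 : κ 3 {i, k} = 2 := by
        rcases B2 i k hki.symm with hb | hb <;> omega
      have f12 := h.smt 3 {i, j} {i, k}
      rw [s_un3, s_in3 i j k hkj.symm] at f12
      have f13 := h.st 2 {i}
      norm_num at f13
      omega
  · have h0 : κ 0 ∅ = 1 := by omega
    have h2 : κ 2 ∅ = 3 := by omega
    have h1i : ∀ i, κ 1 {i} = 1 := by
      intro i
      have := h.s1 1 i
      have := k1 i
      omega
    have h2i : ∀ i, κ 2 {i} = 2 := by
      intro i
      have := A1 i
      have := h1i i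
      omega
    have h2ij : ∀ i j, i ≠ j → κ 2 {i, j} = 1 := by
      intro i j hij
      have := h.s2 2 i j
      have := h2i i
      have := k2 i j hij
      omega
    rcases (show κ 3 ∅ = 3 ∨ κ 3 ∅ = 4 by omega) with h3 | h3
    · have h1ij : ∀ i j, i ≠ j → κ 1 {i, j} = 1 := by
        intro i j hij
        have f1 := h.pm 2 (empty_subset {i, j})
        norm_num at f1
        have f2 := h2ij i j hij
        rcases B2 i j hij with hb | hb <;> omega
      have hu1 : κ 1 univ = 1 := by
        have := h.accU 1 {0} (by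
          intro k hkn
          have hk0 : k ≠ 0 := by simpa using hkn
          show κ 1 {k, 0} = κ 1 {0}
          rw [h1ij k 0 hk0, h1i])
        rw [this, h1i]
      apply h.o1 1
      · intro i; rw [h1i, hu1]
      · intro i j hij
        norm_num
        rw [h2ij i j hij, hu1]
      · omega
      · intro i
        norm_num
        have := h2i i
        omega
    · have h3T : ∀ T : Finset (Fin 5), T.card = 3 → κ 3 T = 1 := by
        intro T hT
        have := h.drop 3 T
        have := k3 T hT
        rw [hT] at *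
        push_cast at *
        omega
      have hu2 : κ 2 univ = 1 := by
        have := h.accU 2 {0, 1} (by
          intro k hkn
          have hc : (insert k ({0, 1} : Finset (Fin 5))).card = 3 := by
            rw [card_insert_of_notMem hkn]; rfl
          rw [C3 _ hc, h3T _ hc, h2ij 0 1 (by decide)])
        rw [this, h2ij 0 1 (by decide)]
      have hu3 : κ 3 univ = 1 := by
        have f1 := h.mt 2 univ
        norm_num at f1
        have f2 := h.mT 3 {0, 1, 2} univ (subset_univ _)
        have f3 := h3T {0, 1, 2} (by decide)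
        omega
      have h6T : ∀ T : Finset (Fin 5), T.card = 4 → κ 6 T ≤ 2 := by
        intro T hT
        have f1 := h.mT 2 T univ (subset_univ _)
        by_contra hcon
        exact E4 T hT ⟨by omega, by omega⟩
      rcases (show κ 4 ∅ = 4 ∨ κ 4 ∅ = 5 by omega) with h4 | h4
      · have h4T3 : ∀ T : Finset (Fin 5), T.card = 3 → κ 4 T = 1 := by
          intro T hT
          have f1 := h.pm 3 (empty_subset T)
          have f2 := h3T T hT
          have f3 := h.mt 3 T
          norm_num at f1 f3
          omega
        have hu4 : κ 4 univ = 1 := by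
          have f1 := h.mt 3 univ
          norm_num at f1
          have f2 := h.mT 4 {0, 1, 2} univ (subset_univ _)
          have f3 := h4T3 {0, 1, 2} (by decide)
          omega
        have hu5 : κ 5 univ = 1 := by
          have f1 := h.mt 4 univ
          norm_num at f1
          omega
        have h5T : ∀ T : Finset (Fin 5), T.card = 4 → κ 5 T = 1 := by
          intro T hT
          have f1 := h.pm 5 (subset_univ T)
          have f2 := h6T T hT
          have f3 := h.mT 5 T univ (subset_univ _)
          norm_num at f1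
          omega
        have l5 : 5 ≤ κ 5 ∅ := h.lb' 5 ∅ 5 (by simp) (by norm_num)
        apply h.o2 4
        · intro T hT; rw [h4T3 T hT, hu4]
        · intro T hT
          norm_num
          rw [h5T T hT, hu5]
        · intro T hT
          norm_num
          have := h.drop 5 T
          rw [hT] at this
          push_cast at this
          omega
      · have h4T : ∀ T : Finset (Fin 5), T.card = 4 → κ 4 T = 1 := by
          intro T hT
          have := h.drop 4 T
          have := k4 T hT
          rw [hT] at *
          push_cast at *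
          omega
        have hu4 : κ 4 univ = 1 := by
          have f1 := h.mt 3 univ
          norm_num at f1
          have f2 := h.mT 4 {0, 1, 2, 3} univ (subset_univ _)
          have f3 := h4T {0, 1, 2, 3} (by decide)
          omega
        apply h.o2 3
        · intro T hT; rw [h3T T hT, hu3]
        · intro T hT
          norm_num
          rw [h4T T hT, hu4]
        · intro T hT
          norm_num
          have := h.drop 4 T
          rw [hT] at this
          push_cast at this
          omega

/-- every five-dimensional subcube contains a selected vertex -/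
theorem kap_hit (h : Kap κ) (s : ℕ) : ∃ T, ¬ Unhit κ s T := by
  by_contra hcon
  push Not at hcon
  rcases (show s % 4 = 0 ∨ s % 4 = 1 ∨ s % 4 = 2 ∨ s % 4 = 3 by omega) with hs | hs | hs | hs
  · exact case0 h s hs hcon
  · exact case1 h s hs hcon
  · exact case2 h s hs hcon
  · exact case3 h s hs hcon

end Pool.Agent.Helper858.Cube5
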