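import Mathlib
import Pool.Agent.Helper858.Cube5.Kap

set_option autoImplicit false

namespace Pool.Agent.Helper858.Cube5

open Finset Module

section lin

variable {F : Type*} [Field F] {N n : ℕ}

/-- relations among the first `t` columns, restricted to the rows in `U` -/
def Z (w : Fin N → Fin n → F) (t : ℕ) (U : Finset (Fin n)) : Submodule F (Fin N → F) where
  carrier := {l | (∀ j : Fin N, t ≤ j.val → l j = 0) ∧ ∀ i ∈ U, ∑ j, l j * w j i = 0}
  zero_mem' := by simp
  add_mem' := by
    rintro a b ⟨h1, h2⟩ ⟨h3, h4⟩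
    refine ⟨fun j hj => by simp [h1 j hj, h3 j hj], fun i hi => ?_⟩
    simp only [Pi.add_apply, add_mul, Finset.sum_add_distrib, h2 i hi, h4 i hi, add_zero]
  smul_mem' := by
    rintro c a ⟨h1, h2⟩
    refine ⟨fun j hj => by simp [h1 j hj], fun i hi => ?_⟩
    simp only [Pi.smul_apply, smul_eq_mul, mul_assoc, ← Finset.mul_sum, h2 i hi, mul_zero]

/-- the dimension of the space of relations -/
noncomputable def kap (w : Fin N → Fin n → F) (t : ℕ) (U : Finset (Fin n)) : ℕ :=
  finrank F (Z w t U)

/-- the row functional -/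
def ell (w : Fin N → Fin n → F) (i : Fin n) : (Fin N → F) →ₗ[F] F where
  toFun l := ∑ j, l j * w j i
  map_add' a b := by simp [add_mul, Finset.sum_add_distrib]
  map_smul' c a := by simp [mul_assoc, Finset.mul_sum]

/-- the coordinate functional -/
def eps (F : Type*) [Field F] (N : ℕ) (t : ℕ) : (Fin N → F) →ₗ[F] F where
  toFun l := if h : t < N then l ⟨t, h⟩ else 0
  map_add' a b := by split_ifs <;> simp
  map_smul' c a := by split_ifs <;> simp

variable (w : Fin N → Fin n → F)

theorem mem_Z {t : ℕ} {U : Finset (Fin n)} {l : Fin N → F} :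
    l ∈ Z w t U ↔ (∀ j : Fin N, t ≤ j.val → l j = 0) ∧ ∀ i ∈ U, ell w i l = 0 := Iff.rfl

theorem Z_mono {s t : ℕ} (hst : s ≤ t) {T U : Finset (Fin n)} (hTU : T ⊆ U) :
    Z w s U ≤ Z w t T := by
  intro l hl
  exact ⟨fun j hj => hl.1 j (hst.trans hj), fun i hi => hl.2 i (hTU hi)⟩

theorem mem_Z_step {t : ℕ} {U : Finset (Fin n)} {l : Fin N → F} :
    l ∈ Z w t U ↔ l ∈ Z w (t + 1) U ∧ eps F N t l = 0 := by
  rw [mem_Z, mem_Z]
  constructor
  · rintro ⟨h1, h2⟩
    refine ⟨⟨fun j hj => h1 j (by omega), h2⟩, ?_⟩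
    show (if h : t < N then l ⟨t, h⟩ else 0) = 0
    split_ifs with h
    · exact h1 ⟨t, h⟩ le_rfl
    · rfl
  · rintro ⟨⟨h1, h2⟩, h3⟩
    refine ⟨fun j hj => ?_, h2⟩
    rcases Nat.lt_or_ge t j.val with h | h
    · exact h1 j h
    · have hj' : j.val = t := le_antisymm h hj
      have h4 : (if h : t < N then l ⟨t, h⟩ else 0) = 0 := h3
      have h5 : t < N := hj' ▸ j.2
      rw [dif_pos h5] at h4
      have : j = ⟨t, h5⟩ := Fin.ext hj'
      rw [this]; exact h4

theorem mem_Z_insert {t : ℕ} {U : Finset (Fin n)} {i : Fin n} {l : Fin N → F} :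
    l ∈ Z w t (insert i U) ↔ l ∈ Z w t U ∧ ell w i l = 0 := by
  rw [mem_Z, mem_Z]
  constructor
  · rintro ⟨h1, h2⟩
    exact ⟨⟨h1, fun k hk => h2 k (mem_insert_of_mem hk)⟩, h2 i (mem_insert_self _ _)⟩
  · rintro ⟨⟨h1, h2⟩, h3⟩
    refine ⟨h1, fun k hk => ?_⟩
    rcases mem_insert.1 hk with rfl | hk
    · exact h3
    · exact h2 k hk

theorem finrank_le_inf_ker (K : Submodule F (Fin N → F)) (f : (Fin N → F) →ₗ[F] F) :
    finrank F K ≤ finrank F (K ⊓ LinearMap.ker f : Submodule F (Fin N → F)) + 1 := by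
  have h1 := Submodule.finrank_sup_add_finrank_inf_eq K (LinearMap.ker f)
  have h2 := LinearMap.finrank_range_add_finrank_ker f
  have h3 : finrank F (LinearMap.range f) ≤ 1 := by
    have := Submodule.finrank_le (LinearMap.range f)
    rwa [finrank_self] at this
  have h4 := Submodule.finrank_le (K ⊔ LinearMap.ker f)
  omega

theorem kap_mono {s t : ℕ} (hst : s ≤ t) {T U : Finset (Fin n)} (hTU : T ⊆ U) :
    kap w s U ≤ kap w t T := Submodule.finrank_mono (Z_mono w hst hTU)

theorem kap_step (t : ℕ) (U : Finset (Fin n)) : kap w (t + 1) U ≤ kap w t U + 1 := by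
  have h := finrank_le_inf_ker (Z w (t + 1) U) (eps F N t)
  have e : Z w (t + 1) U ⊓ LinearMap.ker (eps F N t) = Z w t U := by
    ext l
    rw [Submodule.mem_inf, LinearMap.mem_ker, ← mem_Z_step]
  rwa [e] at h

theorem kap_insert (t : ℕ) (U : Finset (Fin n)) (i : Fin n) :
    kap w t U ≤ kap w t (insert i U) + 1 := by
  have h := finrank_le_inf_ker (Z w t U) (ell w i)
  have e : Z w t U ⊓ LinearMap.ker (ell w i) = Z w t (insert i U) := by
    ext l
    rw [Submodule.mem_inf, LinearMap.mem_ker, ← mem_Z_insert]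
  rwa [e] at h

theorem kap_sm {s t : ℕ} (hst : s ≤ t) (T U : Finset (Fin n)) :
    kap w s T + kap w t U ≤ kap w s (T ∪ U) + kap w t (T ∩ U) := by
  have h1 := Submodule.finrank_sup_add_finrank_inf_eq (Z w s T) (Z w t U)
  have h2 : Z w s T ⊓ Z w t U = Z w s (T ∪ U) := by
    ext l
    rw [Submodule.mem_inf, mem_Z, mem_Z, mem_Z]
    constructor
    · rintro ⟨⟨h1, h2⟩, ⟨h3, h4⟩⟩
      refine ⟨h1, fun i hi => ?_⟩
      rcases mem_union.1 hi with hi | hi
      · exact h2 i hi
      · exact h4 i hi
    · rintro ⟨h1, h2⟩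
      exact ⟨⟨h1, fun i hi => h2 i (mem_union_left _ hi)⟩,
        ⟨fun j hj => h1 j (hst.trans hj), fun i hi => h2 i (mem_union_right _ hi)⟩⟩
  have h3 : Z w s T ⊔ Z w t U ≤ Z w t (T ∩ U) :=
    sup_le (Z_mono w hst inter_subset_left) (Z_mono w le_rfl inter_subset_right)
  have h4 := Submodule.finrank_mono h3
  rw [h2] at h1
  unfold kap
  omega

theorem kap_top : kap w N ∅ = N := by
  unfold kap
  have : Z w N (∅ : Finset (Fin n)) = ⊤ := by
    ext l
    rw [mem_Z]
    constructor
    · intro _; trivial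
    · intro _
      exact ⟨fun j hj => absurd j.2 (not_lt.2 hj), fun i hi => absurd hi (notMem_empty i)⟩
  rw [this, finrank_top, finrank_fin_fun]

theorem kap_empty_ge (t : ℕ) (ht : t ≤ N) : t ≤ kap w t (∅ : Finset (Fin n)) := by
  have h : ∀ k, N ≤ kap w (N - k) (∅ : Finset (Fin n)) + k ∨ N < k := by
    intro k
    induction k with
    | zero => left; rw [Nat.sub_zero, kap_top w]; omega
    | succ k ih =>
      rcases Nat.lt_or_ge N (k + 1) with h | h
      · right; exact h
      · left
        have h1 := kap_step w (N - (k + 1)) ∅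
        have h2 : N - (k + 1) + 1 = N - k := by omega
        rw [h2] at h1
        rcases ih with ih | ih
        · omega
        · omega
  rcases h (N - t) with h1 | h1
  · have h2 : N - (N - t) = t := by omega
    rw [h2] at h1
    omega
  · omega

theorem kap_lb (t : ℕ) (ht : t ≤ N) (U : Finset (Fin n)) : t ≤ kap w t U + U.card := by
  induction U using Finset.induction_on with
  | empty => simpa using kap_empty_ge w t ht
  | insert i U hi ih =>
    have := kap_insert w t U i
    rw [card_insert_of_notMem hi]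
    omega

theorem kap_le (t : ℕ) (U : Finset (Fin n)) : kap w t U ≤ t := by
  induction t with
  | zero =>
    unfold kap
    have : Z w 0 U = ⊥ := by
      ext l
      rw [mem_Z, Submodule.mem_bot]
      constructor
      · rintro ⟨h1, _⟩
        funext j
        exact h1 j (Nat.zero_le _)
      · rintro rfl
        exact ⟨fun _ _ => rfl, fun i _ => map_zero _⟩
    rw [this, finrank_bot]
  | succ t ih =>
    have := kap_step w t U
    omega

/-! ### the six-point obstructions over the field with four elements -/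

theorem pig4 [Fintype F] (hF : Fintype.card F = 4) (r : Fin 4 → F) (h0 : ∀ i, r i ≠ 0)
    (hinj : ∀ i j, i ≠ j → r i ≠ r j) : False := by
  classical
  have h1 : (univ : Finset (Fin 4)).card ≤ ((univ : Finset F).erase 0).card := by
    apply Finset.card_le_card_of_injOn r
    · intro i _
      simp [h0 i]
    · intro i _ j _ hij
      by_contra hne
      exact hinj i j hne hij
  rw [card_erase_of_mem (mem_univ _), card_univ, card_univ, hF, Fintype.card_fin] at h1
  omega

theorem exists_of_ne {V : Type*} [AddCommGroup V] [Module F V] [FiniteDimensional F V]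
    {A B : Submodule F V} (hAB : B ≤ A)
    (hne : finrank F A ≠ finrank F B) : ∃ x ∈ A, x ∉ B := by
  by_contra hcon
  push Not at hcon
  exact hne (by rw [le_antisymm hcon hAB])

/-- the vertex of the subcube given by `T` -/
def cub (S : Finset (Fin n)) (e : Fin 5 ↪ Fin n) (T : Finset (Fin 5)) : Finset (Fin n) :=
  S ∪ T.map e

variable (S : Finset (Fin n)) (e : Fin 5 ↪ Fin n)

theorem cub_union (T U : Finset (Fin 5)) : cub S e (T ∪ U) = cub S e T ∪ cub S e U := by
  unfold cub
  rw [map_union]
  ext a; simp only [mem_union]; tauto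

theorem cub_inter (T U : Finset (Fin 5)) : cub S e (T ∩ U) = cub S e T ∩ cub S e U := by
  unfold cub
  rw [map_inter]
  ext a; simp only [mem_union, mem_inter]; tauto

theorem cub_insert (T : Finset (Fin 5)) (i : Fin 5) :
    cub S e (insert i T) = insert (e i) (cub S e T) := by
  unfold cub
  rw [map_insert]
  ext a; simp only [mem_union, mem_insert]; tauto

theorem cub_mono {T U : Finset (Fin 5)} (h : T ⊆ U) : cub S e T ⊆ cub S e U := by
  unfold cub
  exact union_subset_union_right (map_subset_map.2 h)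

theorem cub_card (hd : ∀ i, e i ∉ S) (T : Finset (Fin 5)) :
    (cub S e T).card = S.card + T.card := by
  unfold cub
  rw [card_union_of_disjoint, card_map]
  rw [disjoint_right]
  intro a ha
  obtain ⟨i, _, rfl⟩ := mem_map.1 ha
  exact hd i

theorem mem_Z_cub {m : ℕ} {T : Finset (Fin 5)} {l : Fin N → F} :
    l ∈ Z w m (cub S e T) ↔ l ∈ Z w m (cub S e ∅) ∧ ∀ i ∈ T, ell w (e i) l = 0 := by
  rw [mem_Z, mem_Z]
  unfold cub
  constructor
  · rintro ⟨h1, h2⟩
    refine ⟨⟨h1, fun i hi => h2 i ?_⟩, fun i hi => h2 _ ?_⟩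
    · rw [map_empty, union_empty] at hi
      exact mem_union_left _ hi
    · exact mem_union_right _ (mem_map_of_mem e hi)
  · rintro ⟨⟨h1, h2⟩, h3⟩
    refine ⟨h1, fun i hi => ?_⟩
    rcases mem_union.1 hi with hi | hi
    · exact h2 i (by rw [map_empty, union_empty]; exact hi)
    · obtain ⟨k, hk, rfl⟩ := mem_map.1 hi
      exact h3 k hk

theorem O1 [Fintype F] (hF : Fintype.card F = 4) (m : ℕ)
    (h1 : ∀ i, kap w m (cub S e {i}) = kap w m (cub S e univ))
    (h2 : ∀ i j, i ≠ j → kap w (m + 1) (cub S e {i, j}) = kap w m (cub S e univ))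
    (h3 : kap w m (cub S e ∅) ≠ kap w m (cub S e univ))
    (h4 : ∀ i, kap w (m + 1) (cub S e {i}) ≠ kap w m (cub S e univ)) : False := by
  set B := Z w m (cub S e univ) with hB
  have hB1 : ∀ i, Z w m (cub S e {i}) = B := by
    intro i
    exact (Submodule.eq_of_le_of_finrank_eq
      (Z_mono w le_rfl (cub_mono S e (subset_univ _))) (h1 i).symm).symm
  have hB2 : ∀ i j, i ≠ j → Z w (m + 1) (cub S e {i, j}) = B := by
    intro i j hij
    exact (Submodule.eq_of_le_of_finrank_eq
      (Z_mono w (Nat.le_succ m) (cub_mono S e (subset_univ _))) (h2 i j hij).symm).symm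
  obtain ⟨f, hf, hfB⟩ := exists_of_ne (Z_mono w le_rfl (cub_mono S e (subset_univ ∅))) h3
  obtain ⟨g, hg, hgB⟩ := exists_of_ne
    (Z_mono w (Nat.le_succ m) (cub_mono S e (subset_univ {0}))) (h4 0)
  have hf1 : f ∈ Z w (m + 1) (cub S e ∅) := ((mem_Z_step w).1 hf).1
  have hfe : eps F N m f = 0 := ((mem_Z_step w).1 hf).2
  have hg0 := (mem_Z_cub w S e).1 hg
  have hp : ∀ j, ell w (e j) f ≠ 0 := by
    intro j hj
    apply hfB
    rw [← hB, ← hB1 j, mem_Z_cub]
    exact ⟨hf, fun i hi => by rw [mem_singleton.1 hi]; exact hj⟩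
  have hs : ∀ j, j ≠ 0 → ell w (e j) g ≠ 0 := by
    intro j hj0 hj
    apply hgB
    rw [← hB, ← hB2 0 j hj0.symm, mem_Z_cub]
    refine ⟨hg0.1, fun i hi => ?_⟩
    rcases mem_insert.1 hi with rfl | hi
    · exact hg0.2 0 (mem_singleton_self _)
    · rw [mem_singleton.1 hi]; exact hj
  have hge : eps F N m g ≠ 0 := by
    intro hh
    apply hgB
    rw [← hB, ← hB1 0]
    exact (mem_Z_step w).2 ⟨hg, hh⟩
  apply pig4 hF (fun j : Fin 4 => ell w (e j.succ) g / ell w (e j.succ) f)
  · intro j
    exact div_ne_zero (hs _ (Fin.succ_ne_zero j)) (hp _)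
  · intro i j hij heq
    have hij' : i.succ ≠ j.succ := fun hh => hij (Fin.succ_injective _ hh)
    have hij'' : ell w (e i.succ) g / ell w (e i.succ) f =
      ell w (e j.succ) g / ell w (e j.succ) f := heq
    set c := ell w (e i.succ) g / ell w (e i.succ) f with hc
    have hx : g - c • f ∈ Z w (m + 1) (cub S e {i.succ, j.succ}) := by
      rw [mem_Z_cub]
      refine ⟨Submodule.sub_mem _ hg0.1 (Submodule.smul_mem _ _ hf1), fun k hk => ?_⟩
      rcases mem_insert.1 hk with rfl | hk
      · rw [map_sub, map_smul, smul_eq_mul, hc, div_mul_cancel₀ _ (hp _), sub_self]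
      · rw [mem_singleton.1 hk, map_sub, map_smul, smul_eq_mul, hij'',
          div_mul_cancel₀ _ (hp _), sub_self]
    rw [hB2 _ _ hij', hB] at hx
    have h5 := ((mem_Z_step w).1 hx).2
    rw [map_sub, map_smul, hfe, smul_zero, sub_zero] at h5
    exact hge h5

theorem d1 : ∀ i : Fin 4, (univ \ {0, i.succ} : Finset (Fin 5)).card = 3 := by decide
theorem d2 : ∀ i : Fin 4, (univ \ {i.succ} : Finset (Fin 5)).card = 4 := by decide
theorem d3 : ∀ i j : Fin 4, i ≠ j →
    (univ \ {i.succ, j.succ} : Finset (Fin 5)).card = 3 := by decide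

theorem O2 [Fintype F] (hF : Fintype.card F = 4) (m : ℕ)
    (h1 : ∀ T : Finset (Fin 5), T.card = 3 → kap w m (cub S e T) = kap w m (cub S e univ))
    (h2 : ∀ T : Finset (Fin 5), T.card = 4 →
      kap w (m + 1) (cub S e T) = kap w (m + 1) (cub S e univ))
    (h3 : ∀ T : Finset (Fin 5), T.card = 3 →
      kap w (m + 1) (cub S e T) ≠ kap w (m + 1) (cub S e univ)) : False := by
  set B := Z w (m + 1) (cub S e univ) with hB
  have hB1 : ∀ T : Finset (Fin 5), T.card = 3 → Z w m (cub S e T) = Z w m (cub S e univ) := by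
    intro T hT
    exact (Submodule.eq_of_le_of_finrank_eq
      (Z_mono w le_rfl (cub_mono S e (subset_univ _))) (h1 T hT).symm).symm
  have hB2 : ∀ T : Finset (Fin 5), T.card = 4 → Z w (m + 1) (cub S e T) = B := by
    intro T hT
    exact (Submodule.eq_of_le_of_finrank_eq
      (Z_mono w le_rfl (cub_mono S e (subset_univ _))) (h2 T hT).symm).symm
  have hex : ∀ i : Fin 4, ∃ x ∈ Z w (m + 1) (cub S e (univ \ {0, i.succ})), x ∉ B := by
    intro i
    exact exists_of_ne (Z_mono w le_rfl (cub_mono S e (subset_univ _))) (h3 _ (d1 i))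
  choose x hx hxB using hex
  have hx' := fun i => (mem_Z_cub w S e).1 (hx i)
  -- the functional of the own index
  have hown : ∀ i : Fin 4, ell w (e i.succ) (x i) ≠ 0 := by
    intro i hi
    apply hxB i
    rw [← hB2 (univ \ {0}) (by decide), mem_Z_cub]
    refine ⟨(hx' i).1, fun k hk => ?_⟩
    by_cases hki : k = i.succ
    · rw [hki]; exact hi
    · apply (hx' i).2
      simp only [mem_sdiff, mem_univ, mem_insert, mem_singleton, true_and] at hk ⊢
      tauto
  have ha : ∀ i : Fin 4, ell w (e 0) (x i) ≠ 0 := by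
    intro i hi
    apply hxB i
    rw [← hB2 (univ \ {i.succ}) (d2 i), mem_Z_cub]
    refine ⟨(hx' i).1, fun k hk => ?_⟩
    by_cases hki : k = 0
    · rw [hki]; exact hi
    · apply (hx' i).2
      simp only [mem_sdiff, mem_univ, mem_insert, mem_singleton, true_and] at hk ⊢
      tauto
  have hb : ∀ i : Fin 4, eps F N m (x i) ≠ 0 := by
    intro i hi
    apply hxB i
    have h5 : x i ∈ Z w m (cub S e (univ \ {0, i.succ})) := (mem_Z_step w).2 ⟨hx i, hi⟩
    rw [hB1 _ (d1 i)] at h5
    exact Z_mono w (Nat.le_succ m) subset_rfl h5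
  apply pig4 hF (fun j : Fin 4 => eps F N m (x j) / ell w (e 0) (x j))
  · intro j
    exact div_ne_zero (hb _) (ha _)
  · intro i j hij heq
    have heq' : eps F N m (x i) * ell w (e 0) (x j) = eps F N m (x j) * ell w (e 0) (x i) := by
      have h6 : eps F N m (x i) / ell w (e 0) (x i) = eps F N m (x j) / ell w (e 0) (x j) := heq
      rwa [div_eq_div_iff (ha i) (ha j)] at h6
    have hy : ell w (e 0) (x j) • x i - ell w (e 0) (x i) • x j ∈
        Z w (m + 1) (cub S e (univ \ {i.succ, j.succ})) := by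
      rw [mem_Z_cub]
      refine ⟨Submodule.sub_mem _ (Submodule.smul_mem _ _ (hx' i).1)
        (Submodule.smul_mem _ _ (hx' j).1), fun k hk => ?_⟩
      rw [map_sub, map_smul, map_smul, smul_eq_mul, smul_eq_mul]
      by_cases hk0 : k = 0
      · rw [hk0]; ring
      · have e1 : ell w (e k) (x i) = 0 := by
          apply (hx' i).2
          simp only [mem_sdiff, mem_univ, mem_insert, mem_singleton, true_and] at hk ⊢
          tauto
        have e2 : ell w (e k) (x j) = 0 := by
          apply (hx' j).2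
          simp only [mem_sdiff, mem_univ, mem_insert, mem_singleton, true_and] at hk ⊢
          tauto
        rw [e1, e2]; ring
    have hy2 : ell w (e 0) (x j) • x i - ell w (e 0) (x i) • x j ∈
        Z w m (cub S e (univ \ {i.succ, j.succ})) := by
      refine (mem_Z_step w).2 ⟨hy, ?_⟩
      rw [map_sub, map_smul, map_smul, smul_eq_mul, smul_eq_mul]
      linear_combination heq'
    rw [hB1 _ (d3 i j hij)] at hy2
    have h7 := ((mem_Z_cub w S e).1 hy2).2 i.succ (mem_univ _)
    rw [map_sub, map_smul, map_smul, smul_eq_mul, smul_eq_mul] at h7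
    have e3 : ell w (e i.succ) (x j) = 0 := by
      apply (hx' j).2
      simp only [mem_sdiff, mem_univ, mem_insert, mem_singleton, true_and, not_or]
      exact ⟨Fin.succ_ne_zero i, fun hh => hij (Fin.succ_injective _ hh)⟩
    rw [e3, mul_zero, sub_zero] at h7
    rcases mul_eq_zero.1 h7 with h8 | h8
    · exact ha j h8
    · exact hown i h8

theorem kap_isKap [Fintype F] (hF : Fintype.card F = 4) (hN : S.card + 6 ≤ N)
    (hd : ∀ i, e i ∉ S) :
    Kap (fun t T => (kap w ((S.card : ℤ) + t).toNat (cub S e T) : ℤ)) where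
  nn t T := by positivity
  mt t T := by
    have : kap w ((S.card : ℤ) + t).toNat (cub S e T) ≤
        kap w ((S.card : ℤ) + (t + 1)).toNat (cub S e T) :=
      kap_mono w (Int.toNat_le_toNat (by omega)) subset_rfl
    exact_mod_cast this
  st t T := by
    rcases lt_or_ge ((S.card : ℤ) + t) 0 with h | h
    · have e1 : ((S.card : ℤ) + (t + 1)).toNat = 0 := Int.toNat_of_nonpos (by omega)
      have e2 : ((S.card : ℤ) + t).toNat = 0 := Int.toNat_of_nonpos (by omega)
      rw [e1, e2]; omega
    · have e1 : ((S.card : ℤ) + (t + 1)).toNat = ((S.card : ℤ) + t).toNat + 1 := by omega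
      rw [e1]
      exact_mod_cast kap_step w _ _
  mT t T U h := by
    exact_mod_cast kap_mono w le_rfl (cub_mono S e h)
  sT t T i := by
    rw [cub_insert]
    exact_mod_cast kap_insert w _ _ _
  sm s t hst T U := by
    rw [cub_union, cub_inter]
    exact_mod_cast kap_sm w (Int.toNat_le_toNat (by omega)) _ _
  lb t ht T := by
    rcases lt_or_ge ((S.card : ℤ) + t) 0 with h | h
    · have : (0 : ℤ) ≤ kap w ((S.card : ℤ) + t).toNat (cub S e T) := by positivity
      omega
    · have h1 := kap_lb w ((S.card : ℤ) + t).toNat (by omega) (cub S e T)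
      rw [cub_card S e hd] at h1
      omega
  o1 t h1 h2 h3 h4 := by
    rcases lt_or_ge ((S.card : ℤ) + t) 0 with h | h
    · have e2 : ((S.card : ℤ) + t).toNat = 0 := Int.toNat_of_nonpos (by omega)
      apply h3
      have g1 := kap_le w 0 (cub S e ∅)
      have g2 := kap_le w 0 (cub S e univ)
      simp only [e2]
      omega
    · have e1 : ((S.card : ℤ) + (t + 1)).toNat = ((S.card : ℤ) + t).toNat + 1 := by omega
      simp only [e1] at h2 h4
      exact O1 w S e hF _ (fun i => by exact_mod_cast h1 i) (fun i j hij => by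
        exact_mod_cast h2 i j hij) (fun hh => h3 (by exact_mod_cast hh)) (fun i hh =>
        h4 i (by exact_mod_cast hh))
  o2 t h1 h2 h3 := by
    rcases lt_or_ge ((S.card : ℤ) + t) 0 with h | h
    · have e2 : ((S.card : ℤ) + (t + 1)).toNat = 0 := Int.toNat_of_nonpos (by omega)
      apply h3 {0, 1, 2} (by decide)
      have g1 := kap_le w 0 (cub S e {0, 1, 2})
      have g2 := kap_le w 0 (cub S e univ)
      simp only [e2]
      omega
    · have e1 : ((S.card : ℤ) + (t + 1)).toNat = ((S.card : ℤ) + t).toNat + 1 := by omega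
      simp only [e1] at h2 h3
      exact O2 w S e hF _ (fun T hT => by exact_mod_cast h1 T hT) (fun T hT => by
        exact_mod_cast h2 T hT) (fun T hT hh => h3 T hT (by exact_mod_cast hh))

end lin

end Pool.Agent.Helper858.Cube5
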