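import Mathlib
import Pool.Agent.Helper858.Cube5.Lin

set_option autoImplicit false

namespace Pool.Agent.Helper858.Cube5

open Finset Module

section count

set_option linter.unusedSectionVars false

variable {F : Type*} [Field F] [Fintype F] [DecidableEq F] {N n : ℕ}

theorem card_fix {m : ℕ} (U : Finset (Fin m)) (a : Fin m → F) :
    (univ.filter (fun y : Fin m → F => ∀ i ∈ U, y i = a i)).card * Fintype.card F ^ U.card =
      Fintype.card F ^ m := by
  have h1 : univ.filter (fun y : Fin m → F => ∀ i ∈ U, y i = a i) =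
      Fintype.piFinset (fun i => if i ∈ U then ({a i} : Finset F) else univ) := by
    ext y
    simp only [mem_filter, mem_univ, true_and, Fintype.mem_piFinset]
    constructor
    · intro h i
      by_cases hi : i ∈ U
      · rw [if_pos hi, h i hi]; exact mem_singleton_self _
      · rw [if_neg hi]; exact mem_univ _
    · intro h i hi
      have := h i
      rw [if_pos hi] at this
      exact mem_singleton.1 this
  have h2 : (Fintype.card F) ^ U.card = ∏ i : Fin m, (if i ∈ U then Fintype.card F else 1) := by
    rw [Finset.prod_ite, Finset.prod_const, Finset.prod_const_one, mul_one]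
    congr 2
    ext i; simp
  rw [h1, Fintype.card_piFinset, h2, ← Finset.prod_mul_distrib]
  calc _ = ∏ _i : Fin m, Fintype.card F := by
        apply Finset.prod_congr rfl
        intro i _
        by_cases hi : i ∈ U
        · simp [hi]
        · simp [hi]
    _ = Fintype.card F ^ m := by simp

theorem card_supp {t : ℕ} (ht : t ≤ N) :
    (univ.filter (fun l : Fin N → F => ∀ j : Fin N, t ≤ j.val → l j = 0)).card =
      Fintype.card F ^ t := by
  have h := card_fix (univ.filter (fun j : Fin N => t ≤ j.val)) (0 : Fin N → F)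
  have h1 : (univ.filter (fun j : Fin N => t ≤ j.val)).card = N - t := by
    have h2 := Finset.card_filter_add_card_filter_not (s := (univ : Finset (Fin N)))
      (fun j : Fin N => j.val < t)
    have h3 : (univ.filter (fun j : Fin N => j.val < t)).card = t := by
      have : (univ.filter (fun j : Fin N => j.val < t)) =
          (univ : Finset (Fin t)).map (Fin.castLEEmb ht) := by
        ext j
        simp only [mem_filter, mem_univ, true_and, mem_map]
        constructor
        · intro hj
          exact ⟨⟨j.val, hj⟩, Fin.ext rfl⟩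
        · rintro ⟨k, rfl⟩
          exact k.2
      rw [this, card_map, card_univ, Fintype.card_fin]
    have h4 : (univ.filter (fun j : Fin N => ¬ j.val < t)) =
        univ.filter (fun j : Fin N => t ≤ j.val) := by
      ext j; simp
    rw [h3, h4, card_univ, Fintype.card_fin] at h2
    omega
  rw [h1] at h
  have h5 : univ.filter (fun y : Fin N → F => ∀ i ∈ univ.filter (fun j : Fin N => t ≤ j.val),
      y i = (0 : Fin N → F) i) =
      univ.filter (fun l : Fin N → F => ∀ j : Fin N, t ≤ j.val → l j = 0) := by
    ext y; simp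
  rw [h5] at h
  have hq : 0 < Fintype.card F := Fintype.card_pos
  have h6 : Fintype.card F ^ N = Fintype.card F ^ t * Fintype.card F ^ (N - t) := by
    rw [← pow_add]; congr 1; omega
  rw [h6] at h
  exact Nat.eq_of_mul_eq_mul_right (pow_pos hq _) h

variable (w : Fin N → Fin n → F)

theorem Z_update {t : ℕ} (ht : t < N) (y : Fin n → F) {s : ℕ} (hs : s ≤ t) (U : Finset (Fin n)) :
    Z (Function.update w ⟨t, ht⟩ y) s U = Z w s U := by
  ext l
  rw [mem_Z, mem_Z]
  have key : (∀ j : Fin N, s ≤ j.val → l j = 0) → ∀ i,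
      ell (Function.update w ⟨t, ht⟩ y) i l = ell w i l := by
    intro h i
    show ∑ j, l j * (Function.update w ⟨t, ht⟩ y) j i = ∑ j, l j * w j i
    apply Finset.sum_congr rfl
    intro j _
    by_cases hj : j = ⟨t, ht⟩
    · have : l j = 0 := h j (by rw [hj]; exact hs)
      rw [this, zero_mul, zero_mul]
    · rw [Function.update_of_ne hj]
  constructor
  · rintro ⟨h1, h2⟩
    exact ⟨h1, fun i hi => by rw [← key h1]; exact h2 i hi⟩
  · rintro ⟨h1, h2⟩
    exact ⟨h1, fun i hi => by rw [key h1]; exact h2 i hi⟩

theorem kap_update {t : ℕ} (ht : t < N) (y : Fin n → F) {s : ℕ} (hs : s ≤ t)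
    (U : Finset (Fin n)) : kap (Function.update w ⟨t, ht⟩ y) s U = kap w s U := by
  unfold kap
  rw [Z_update w ht y hs]

theorem kap_succ_cases (t : ℕ) (U : Finset (Fin n)) :
    kap w (t + 1) U = kap w t U + 1 ↔ ∃ l ∈ Z w (t + 1) U, eps F N t l ≠ 0 := by
  constructor
  · intro h
    obtain ⟨l, hl, hl'⟩ := exists_of_ne (Z_mono w (Nat.le_succ t) (subset_refl U))
      (show finrank F (Z w (t + 1) U) ≠ finrank F (Z w t U) by
        unfold kap at h; omega)
    exact ⟨l, hl, fun h0 => hl' ((mem_Z_step w).2 ⟨hl, h0⟩)⟩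
  · rintro ⟨l, hl, hl0⟩
    have h1 := kap_step w t U
    have h2 : kap w t U < kap w (t + 1) U := by
      apply Submodule.finrank_lt_finrank_of_lt
      refine lt_of_le_of_ne (Z_mono w (Nat.le_succ t) (subset_refl U)) ?_
      intro heq
      have : l ∈ Z w t U := by rw [heq]; exact hl
      exact hl0 ((mem_Z_step w).1 this).2
    omega

/-- dependency of a new column -/
theorem dep_iff {t : ℕ} (ht : t < N) (y : Fin n → F) (U : Finset (Fin n)) :
    kap (Function.update w ⟨t, ht⟩ y) (t + 1) U = kap w t U + 1 ↔
      ∃ l : Fin N → F, (∀ j : Fin N, t ≤ j.val → l j = 0) ∧ ∀ i ∈ U, y i = ell w i l := by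
  rw [← kap_update w ht y le_rfl U, kap_succ_cases]
  have hell : ∀ (l : Fin N → F) (i : Fin n), ell (Function.update w ⟨t, ht⟩ y) i l =
      ell w i (Function.update l ⟨t, ht⟩ 0) + l ⟨t, ht⟩ * y i := by
    intro l i
    show ∑ j, l j * (Function.update w ⟨t, ht⟩ y) j i =
      ∑ j, (Function.update l ⟨t, ht⟩ 0) j * w j i + l ⟨t, ht⟩ * y i
    rw [← Finset.add_sum_erase _ _ (mem_univ (⟨t, ht⟩ : Fin N)),
      ← Finset.add_sum_erase (univ : Finset (Fin N)) (fun j =>
        (Function.update l ⟨t, ht⟩ 0) j * w j i) (mem_univ (⟨t, ht⟩ : Fin N))]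
    simp only [Function.update_self, zero_mul, zero_add]
    rw [add_comm]
    congr 1
    apply Finset.sum_congr rfl
    intro j hj
    have hj' : j ≠ ⟨t, ht⟩ := (mem_erase.1 hj).1
    rw [Function.update_of_ne hj', Function.update_of_ne hj']
  constructor
  · rintro ⟨l, hl, hl0⟩
    have h0 : eps F N t l = l ⟨t, ht⟩ := by
      show (if h : t < N then l ⟨t, h⟩ else 0) = _
      rw [dif_pos ht]
    rw [h0] at hl0
    refine ⟨-(l ⟨t, ht⟩)⁻¹ • Function.update l ⟨t, ht⟩ 0, ?_, ?_⟩
    · intro j hj
      by_cases hjt : j = ⟨t, ht⟩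
      · rw [hjt]; simp
      · have : l j = 0 := hl.1 j (by
          have : j.val ≠ t := fun h => hjt (Fin.ext h)
          omega)
        simp [Function.update_of_ne hjt, this]
    · intro i hi
      have h1 := hl.2 i hi
      have h2 := hell l i
      have h3 : ell (Function.update w ⟨t, ht⟩ y) i l = 0 := h1
      rw [h3] at h2
      rw [map_smul, smul_eq_mul]
      field_simp
      linear_combination -h2
  · rintro ⟨l, hl1, hl2⟩
    have hu : Function.update l ⟨t, ht⟩ 0 = l := by
      funext j
      by_cases hjt : j = ⟨t, ht⟩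
      · rw [hjt, Function.update_self, hl1 _ le_rfl]
      · rw [Function.update_of_ne hjt]
    refine ⟨Function.update l ⟨t, ht⟩ (-1), ⟨?_, ?_⟩, ?_⟩
    · intro j hj
      have hjt : j ≠ ⟨t, ht⟩ := by
        intro h; rw [h] at hj; simp at hj
      rw [Function.update_of_ne hjt]
      exact hl1 j (by omega)
    · intro i hi
      have h2 := hell (Function.update l ⟨t, ht⟩ (-1)) i
      rw [Function.update_idem, hu, Function.update_self, hl2 i hi] at h2
      have h3 : ell (Function.update w ⟨t, ht⟩ y) i (Function.update l ⟨t, ht⟩ (-1)) = 0 := by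
        rw [h2]; ring
      exact h3
    · show (if h : t < N then (Function.update l ⟨t, ht⟩ (-1)) ⟨t, h⟩ else 0) ≠ 0
      rw [dif_pos ht, Function.update_self]
      simp

theorem card_Z (t : ℕ) (U : Finset (Fin n)) :
    Nat.card (Z w t U) = Fintype.card F ^ kap w t U := by
  have := Module.natCard_eq_pow_finrank (K := F) (V := Z w t U)
  rw [this, Nat.card_eq_fintype_card]
  rfl

open Classical in
/-- the number of dependent new columns -/
theorem count_dep {t : ℕ} (ht : t < N) (U : Finset (Fin n)) :
    (univ.filter (fun y : Fin n → F =>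
      kap (Function.update w ⟨t, ht⟩ y) (t + 1) U = kap w t U + 1)).card *
      Fintype.card F ^ (U.card + kap w t U) = Fintype.card F ^ (n + t) := by
  set E : Finset (Fin N → F) :=
    univ.filter (fun l : Fin N → F => ∀ j : Fin N, t ≤ j.val → l j = 0) with hE
  set I := univ.filter (fun y : Fin n → F =>
      kap (Function.update w ⟨t, ht⟩ y) (t + 1) U = kap w t U + 1) with hI
  -- double counting
  have h1 : ∑ l ∈ E, (univ.filter (fun y : Fin n → F => ∀ i ∈ U, y i = ell w i l)).card =
      ∑ y : Fin n → F, (E.filter (fun l => ∀ i ∈ U, y i = ell w i l)).card := by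
    simp only [Finset.card_filter]
    rw [Finset.sum_comm]
  have h2 : (∑ l ∈ E, (univ.filter (fun y : Fin n → F => ∀ i ∈ U, y i = ell w i l)).card) *
      Fintype.card F ^ U.card = Fintype.card F ^ (n + t) := by
    rw [Finset.sum_mul]
    have : ∀ l ∈ E, (univ.filter (fun y : Fin n → F => ∀ i ∈ U, y i = ell w i l)).card *
        Fintype.card F ^ U.card = Fintype.card F ^ n := fun l _ =>
      card_fix U (fun i => ell w i l)
    rw [Finset.sum_congr rfl this, Finset.sum_const, hE, card_supp ht.le, smul_eq_mul, pow_add]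
    ring
  have h3 : ∀ y : Fin n → F, (E.filter (fun l => ∀ i ∈ U, y i = ell w i l)).card =
      if y ∈ I then Fintype.card F ^ kap w t U else 0 := by
    intro y
    by_cases hy : y ∈ I
    · rw [if_pos hy]
      have hy' := (dep_iff w ht y U).1 (mem_filter.1 hy).2
      obtain ⟨l₀, hl1, hl2⟩ := hy'
      have : (E.filter (fun l => ∀ i ∈ U, y i = ell w i l)) =
          (univ.filter (fun l : Fin N → F => l ∈ Z w t U)).map (addLeftEmbedding l₀) := by
        ext l
        simp only [mem_filter, mem_map, mem_univ, true_and, addLeftEmbedding_apply, hE]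
        constructor
        · rintro ⟨g1, g2⟩
          refine ⟨l - l₀, ?_, by abel⟩
          rw [mem_Z]
          refine ⟨fun j hj => ?_, fun i hi => ?_⟩
          · rw [Pi.sub_apply, g1 j hj, hl1 j hj, sub_zero]
          · rw [map_sub, ← g2 i hi, ← hl2 i hi, sub_self]
        · rintro ⟨a, ha, rfl⟩
          rw [mem_Z] at ha
          refine ⟨fun j hj => ?_, fun i hi => ?_⟩
          · rw [Pi.add_apply, hl1 j hj, ha.1 j hj, add_zero]
          · rw [map_add, ha.2 i hi, add_zero, hl2 i hi]
      rw [this, card_map, ← card_Z w t U, Nat.card_eq_fintype_card, Fintype.card_subtype]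
    · rw [if_neg hy, Finset.card_eq_zero, Finset.filter_eq_empty_iff]
      intro l hl hall
      apply hy
      rw [hI, mem_filter]
      exact ⟨mem_univ _, (dep_iff w ht y U).2 ⟨l, (mem_filter.1 hl).2, hall⟩⟩
  rw [h1, Finset.sum_congr rfl (fun y _ => h3 y), Finset.sum_ite_mem, univ_inter,
    Finset.sum_const, smul_eq_mul] at h2
  rw [pow_add, ← h2]
  ring

end count

end Pool.Agent.Helper858.Cube5
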