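import Mathlib
import Pool.Agent.Helper858.Cube5.Count

set_option autoImplicit false

namespace Pool.Agent.Helper858.Cube5

open Finset Module

section prob

set_option linter.unusedSectionVars false

variable {F : Type*} [Field F] [Fintype F] [DecidableEq F] {N n : ℕ}

open Classical in
/-- the proportion of column systems with a property -/
noncomputable def pr (E : (Fin N → Fin n → F) → Prop) : ℝ :=
  ((univ.filter E).card : ℝ) / Fintype.card (Fin N → Fin n → F)

theorem omega_pos : (0 : ℝ) < Fintype.card (Fin N → Fin n → F) := by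
  have : 0 < Fintype.card (Fin N → Fin n → F) := Fintype.card_pos
  exact_mod_cast this

theorem pr_def (E : (Fin N → Fin n → F) → Prop) [DecidablePred E] :
    pr E = ((univ.filter E).card : ℝ) / Fintype.card (Fin N → Fin n → F) := by
  unfold pr
  congr!

theorem card_eq_pr (E : (Fin N → Fin n → F) → Prop) [DecidablePred E] :
    ((univ.filter E).card : ℝ) = pr E * Fintype.card (Fin N → Fin n → F) := by
  rw [pr_def, div_mul_cancel₀ _ (ne_of_gt omega_pos)]

theorem pr_nonneg (E : (Fin N → Fin n → F) → Prop) : 0 ≤ pr E := by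
  unfold pr; positivity

theorem pr_mono {E E' : (Fin N → Fin n → F) → Prop} (h : ∀ w, E w → E' w) : pr E ≤ pr E' := by
  classical
  unfold pr
  apply div_le_div_of_nonneg_right _ omega_pos.le
  exact_mod_cast card_le_card (fun w hw => by
    rw [mem_filter] at hw ⊢
    exact ⟨hw.1, h w hw.2⟩)

theorem pr_true : pr (fun _ : Fin N → Fin n → F => True) = 1 := by
  unfold pr
  rw [filter_true, card_univ, div_self (ne_of_gt omega_pos)]

theorem pr_le_one (E : (Fin N → Fin n → F) → Prop) : pr E ≤ 1 := by
  rw [← pr_true (F := F) (N := N) (n := n)]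
  exact pr_mono (fun _ _ => trivial)

theorem pr_split (E Q : (Fin N → Fin n → F) → Prop) :
    pr E = pr (fun w => E w ∧ Q w) + pr (fun w => E w ∧ ¬ Q w) := by
  classical
  rw [pr_def, pr_def, pr_def, ← add_div]
  congr 1
  have h := Finset.card_filter_add_card_filter_not (s := univ.filter E) Q
  rw [filter_filter, filter_filter] at h
  exact_mod_cast h.symm

theorem pr_false {E : (Fin N → Fin n → F) → Prop} (h : ∀ w, ¬ E w) : pr E = 0 := by
  classical
  unfold pr
  rw [filter_false_of_mem (fun w _ => h w)]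
  simp

theorem resample {A : Type*} [Fintype A] [DecidableEq A] {m : ℕ} (t : Fin m)
    (g : (Fin m → A) → ℕ) :
    ∑ w : Fin m → A, ∑ y : A, g (Function.update w t y) = Fintype.card A * ∑ w, g w := by
  have h1 : ∑ w : Fin m → A, ∑ y : A, g (Function.update w t y) =
      ∑ p : (Fin m → A) × A, g (Function.update p.1 t p.2) := by
    rw [Fintype.sum_prod_type]
  let e : (Fin m → A) × A ≃ (Fin m → A) × A :=
    { toFun := fun p => (Function.update p.1 t p.2, p.1 t)
      invFun := fun p => (Function.update p.1 t p.2, p.1 t)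
      left_inv := fun p => by simp
      right_inv := fun p => by simp }
  have h2 : ∑ p : (Fin m → A) × A, g (Function.update p.1 t p.2) =
      ∑ p : (Fin m → A) × A, g p.1 :=
    Equiv.sum_comp e (fun p : (Fin m → A) × A => g p.1)
  rw [h1, h2, Fintype.sum_prod_type]
  simp only [sum_const, card_univ, smul_eq_mul]
  rw [← Finset.mul_sum]

/-- conditional probability that a new column is dependent -/
theorem pr_dep {t : ℕ} (ht : t < N) (U : Finset (Fin n)) (k : ℕ)
    (E : (Fin N → Fin n → F) → Prop)
    (hinv : ∀ w y, E (Function.update w ⟨t, ht⟩ y) ↔ E w) (hval : ∀ w, E w → kap w t U = k) :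
    pr (fun w => E w ∧ kap w (t + 1) U = k + 1) =
      pr E * ((Fintype.card F : ℝ) ^ t / (Fintype.card F : ℝ) ^ (U.card + k)) := by
  classical
  have h1 := resample (A := Fin n → F) (⟨t, ht⟩ : Fin N)
    (fun w => if E w ∧ kap w (t + 1) U = k + 1 then 1 else 0)
  have h2 : ∀ w : Fin N → Fin n → F, (∑ y : Fin n → F,
      if E (Function.update w ⟨t, ht⟩ y) ∧
        kap (Function.update w ⟨t, ht⟩ y) (t + 1) U = k + 1 then 1 else 0) *
      Fintype.card F ^ (U.card + k) = if E w then Fintype.card F ^ (n + t) else 0 := by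
    intro w
    by_cases hE : E w
    · rw [if_pos hE, ← count_dep w ht U, hval w hE]
      congr 1
      rw [Finset.card_filter]
      apply Finset.sum_congr rfl
      intro y _
      simp only [hinv, hE, true_and]
    · rw [if_neg hE]
      simp only [hinv, hE, false_and, if_false, sum_const_zero, zero_mul]
  have h3 : (Fintype.card (Fin n → F) * (univ.filter (fun w : Fin N → Fin n → F =>
      E w ∧ kap w (t + 1) U = k + 1)).card) * Fintype.card F ^ (U.card + k) =
      (univ.filter E).card * Fintype.card F ^ (n + t) := by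
    rw [Finset.card_filter, ← h1, Finset.sum_mul, Finset.sum_congr rfl (fun w _ => h2 w),
      Finset.card_filter, Finset.sum_mul]
    apply Finset.sum_congr rfl
    intro w _
    split_ifs <;> simp
  have hc : Fintype.card (Fin n → F) = Fintype.card F ^ n := by simp
  rw [hc] at h3
  have h4 : ((Fintype.card F : ℝ) ^ n * ((univ.filter (fun w : Fin N → Fin n → F =>
      E w ∧ kap w (t + 1) U = k + 1)).card : ℝ)) * (Fintype.card F : ℝ) ^ (U.card + k) =
      ((univ.filter E).card : ℝ) * (Fintype.card F : ℝ) ^ (n + t) := by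
    exact_mod_cast h3
  rw [card_eq_pr, card_eq_pr, pow_add] at h4
  have hq : (0 : ℝ) < Fintype.card F := by exact_mod_cast Fintype.card_pos
  have hqn : (Fintype.card F : ℝ) ^ n ≠ 0 := ne_of_gt (pow_pos hq _)
  have hO := ne_of_gt (omega_pos (F := F) (N := N) (n := n))
  have h5 : pr (fun w : Fin N → Fin n → F => E w ∧ kap w (t + 1) U = k + 1) *
      (Fintype.card F : ℝ) ^ (U.card + k) = pr E * (Fintype.card F : ℝ) ^ t := by
    have h6 : ((Fintype.card F : ℝ) ^ n * (Fintype.card (Fin N → Fin n → F) : ℝ)) *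
      (pr (fun w : Fin N → Fin n → F => E w ∧ kap w (t + 1) U = k + 1) *
      (Fintype.card F : ℝ) ^ (U.card + k)) =
      ((Fintype.card F : ℝ) ^ n * (Fintype.card (Fin N → Fin n → F) : ℝ)) *
      (pr E * (Fintype.card F : ℝ) ^ t) := by
      rw [pow_add] at h4 ⊢
      linear_combination h4
    exact mul_left_cancel₀ (mul_ne_zero hqn hO) h6
  rw [← mul_div_assoc, eq_div_iff (ne_of_gt (pow_pos hq _)), h5]

theorem pr_union {E E₁ E₂ : (Fin N → Fin n → F) → Prop} (h : ∀ w, E w → E₁ w ∨ E₂ w) :
    pr E ≤ pr E₁ + pr E₂ := by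
  rw [pr_split E E₁]
  apply add_le_add
  · exact pr_mono fun w hw => hw.2
  · exact pr_mono fun w hw => (h w hw.1).resolve_left hw.2

theorem B1 (hF : Fintype.card F = 4) (U : Finset (Fin n)) (t : ℕ) (ht : t ≤ N) :
    pr (fun w : Fin N → Fin n → F => 1 ≤ kap w t U) ≤ (4 : ℝ) ^ t / (3 * 4 ^ U.card) := by
  induction t with
  | zero =>
    rw [pr_false (fun w hw => by have := kap_le w 0 U; omega)]
    positivity
  | succ t ih =>
    have ht' : t < N := ht
    have h1 := pr_union (E := fun w : Fin N → Fin n → F => 1 ≤ kap w (t + 1) U)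
      (E₁ := fun w => 1 ≤ kap w t U) (E₂ := fun w => kap w t U = 0 ∧ kap w (t + 1) U = 0 + 1)
      (by
        intro w hw
        have := kap_step w t U
        omega)
    have h2 := pr_dep ht' U 0 (fun w : Fin N → Fin n → F => kap w t U = 0)
      (by intro w y; rw [kap_update w ht' y le_rfl]) (fun w hw => hw)
    have h3 := pr_le_one (fun w : Fin N → Fin n → F => kap w t U = 0)
    have h4 := ih ht'.le
    rw [h2, hF] at h1
    push_cast at h1
    rw [add_zero] at h1
    have h5 : (0 : ℝ) ≤ 4 ^ t / 4 ^ U.card := by positivity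
    have h6 : pr (fun w : Fin N → Fin n → F => kap w t U = 0) * ((4 : ℝ) ^ t / 4 ^ U.card) ≤
        4 ^ t / 4 ^ U.card := mul_le_of_le_one_left h5 h3
    have h7 : (4 : ℝ) ^ t / (3 * 4 ^ U.card) + 4 ^ t / 4 ^ U.card =
        4 ^ (t + 1) / (3 * 4 ^ U.card) := by
      field_simp
      ring
    linarith

theorem B2 (hF : Fintype.card F = 4) (U : Finset (Fin n)) (t : ℕ) (ht : t ≤ N) :
    pr (fun w : Fin N → Fin n → F => 2 ≤ kap w t U) ≤ (16 : ℝ) ^ t / (180 * 16 ^ U.card) := by
  induction t with
  | zero =>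
    rw [pr_false (fun w hw => by have := kap_le w 0 U; omega)]
    positivity
  | succ t ih =>
    have ht' : t < N := ht
    have h1 := pr_union (E := fun w : Fin N → Fin n → F => 2 ≤ kap w (t + 1) U)
      (E₁ := fun w => 2 ≤ kap w t U) (E₂ := fun w => kap w t U = 1 ∧ kap w (t + 1) U = 1 + 1)
      (by
        intro w hw
        have := kap_step w t U
        omega)
    have h2 := pr_dep ht' U 1 (fun w : Fin N → Fin n → F => kap w t U = 1)
      (by intro w y; rw [kap_update w ht' y le_rfl]) (fun w hw => hw)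
    have h3 : pr (fun w : Fin N → Fin n → F => kap w t U = 1) ≤ (4 : ℝ) ^ t / (3 * 4 ^ U.card) :=
      (pr_mono (fun w (hw : kap w t U = 1) => le_of_eq hw.symm)).trans (B1 hF U t ht'.le)
    have h4 := ih ht'.le
    rw [h2, hF] at h1
    push_cast at h1
    have h5 : (0 : ℝ) ≤ 4 ^ t / 4 ^ (U.card + 1) := by positivity
    have h6 : pr (fun w : Fin N → Fin n → F => kap w t U = 1) * ((4 : ℝ) ^ t / 4 ^ (U.card + 1)) ≤
        (4 : ℝ) ^ t / (3 * 4 ^ U.card) * (4 ^ t / 4 ^ (U.card + 1)) :=
      mul_le_mul_of_nonneg_right h3 h5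
    have e1 : (16 : ℝ) ^ t = 4 ^ t * 4 ^ t := by rw [← mul_pow]; norm_num
    have e2 : (16 : ℝ) ^ U.card = 4 ^ U.card * 4 ^ U.card := by rw [← mul_pow]; norm_num
    have h7 : (16 : ℝ) ^ t / (180 * 16 ^ U.card) +
        (4 : ℝ) ^ t / (3 * 4 ^ U.card) * (4 ^ t / 4 ^ (U.card + 1)) =
        16 ^ (t + 1) / (180 * 16 ^ U.card) := by
      rw [pow_succ (16 : ℝ) t, e1, e2, pow_succ]
      field_simp
      ring
    linarith

/-- the selected sets -/
def sel (w : Fin N → Fin n → F) (s : ℕ) (U : Finset (Fin n)) : Prop :=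
  2 ≤ kap w U.card U ∨
  ((s + U.card) % 4 = 0 ∧ kap w (U.card + 1) U = kap w U.card U) ∨
  ((s + U.card) % 4 = 1 ∧ kap w (U.card - 1) U ≠ kap w U.card U ∧
    kap w (U.card + 1) U = kap w U.card U) ∨
  ((s + U.card) % 4 = 2 ∧ kap w (U.card - 1) U ≠ kap w U.card U) ∨
  ((s + U.card) % 4 = 3 ∧ 1 ≤ kap w (U.card - 2) U ∧ 3 ≤ kap w (U.card + 2) U)

open Classical in
/-- indicator -/
noncomputable def ind (P : Prop) : ℕ := if P then 1 else 0

theorem ind_cases (P : Prop) : (ind P = 0 ∧ ¬ P) ∨ (ind P = 1 ∧ P) := by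
  classical
  unfold ind
  by_cases h : P
  · right; exact ⟨if_pos h, h⟩
  · left; exact ⟨if_neg h, h⟩

theorem ind_le (P : Prop) : ind P ≤ 1 := by
  rcases ind_cases P with h | h <;> omega

theorem ind_true {P : Prop} (h : P) : ind P = 1 := by
  unfold ind; exact if_pos h

theorem sum_ind (E : (Fin N → Fin n → F) → Prop) :
    ((∑ w, ind (E w) : ℕ) : ℝ) = pr E * Fintype.card (Fin N → Fin n → F) := by
  classical
  rw [← card_eq_pr E, Finset.card_filter]
  simp only [ind]

theorem pointwise (w : Fin N → Fin n → F) (U : Finset (Fin n)) (hN : U.card + 2 ≤ N) :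
    ind (sel w 0 U) + ind (sel w 1 U) + ind (sel w 2 U) + ind (sel w 3 U) ≤
      4 * ind (2 ≤ kap w (U.card - 1) U) +
      4 * ind (kap w (U.card - 1) U = 1 ∧ kap w U.card U = 2) +
      ind ((kap w (U.card - 1) U = 1 ∧ kap w U.card U = 1) ∧ kap w (U.card + 1) U = 1) +
      ind (kap w (U.card - 1) U = 0 ∧ kap w U.card U = 1) +
      2 * ind ((kap w (U.card - 1) U = 0 ∧ kap w U.card U = 1) ∧ kap w (U.card + 1) U = 1) +
      ind ((((kap w (U.card - 2) U = 1 ∧ kap w (U.card - 1) U = 1) ∧ kap w U.card U = 1) ∧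
        kap w (U.card + 1) U = 2) ∧ kap w (U.card + 2) U = 3) := by
  have i0 := ind_le (sel w 0 U)
  have i1 := ind_le (sel w 1 U)
  have i2 := ind_le (sel w 2 U)
  have i3 := ind_le (sel w 3 U)
  have mab : kap w (U.card - 1) U ≤ kap w U.card U := kap_mono w (by omega) subset_rfl
  have sab : kap w U.card U ≤ kap w (U.card - 1) U + 1 := by
    rcases Nat.eq_zero_or_pos U.card with h | h
    · have := kap_le w U.card U; omega
    · have := kap_step w (U.card - 1) U
      rwa [Nat.sub_add_cancel h] at this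
  have mda : kap w (U.card - 2) U ≤ kap w (U.card - 1) U := kap_mono w (by omega) subset_rfl
  have mbc : kap w U.card U ≤ kap w (U.card + 1) U := kap_mono w (by omega) subset_rfl
  have sbc := kap_step w U.card U
  have mcg : kap w (U.card + 1) U ≤ kap w (U.card + 2) U := kap_mono w (by omega) subset_rfl
  have scg := kap_step w (U.card + 1) U
  have lc := kap_lb w (U.card + 1) (by omega) U
  rw [add_assoc] at scg
  norm_num at scg
  by_cases ha2 : 2 ≤ kap w (U.card - 1) U
  · rw [ind_true ha2]; omega
  by_cases ha1 : kap w (U.card - 1) U = 1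
  · by_cases hb : kap w U.card U = 2
    · rw [ind_true (⟨ha1, hb⟩ : kap w (U.card - 1) U = 1 ∧ kap w U.card U = 2)]; omega
    · have hb1 : kap w U.card U = 1 := by omega
      -- at most the classes A and E
      have hA : ∀ s, ind (sel w s U) ≤
          (if (s + U.card) % 4 = 0 then
            ind ((kap w (U.card - 1) U = 1 ∧ kap w U.card U = 1) ∧ kap w (U.card + 1) U = 1)
          else if (s + U.card) % 4 = 3 then
            ind ((((kap w (U.card - 2) U = 1 ∧ kap w (U.card - 1) U = 1) ∧
              kap w U.card U = 1) ∧ kap w (U.card + 1) U = 2) ∧ kap w (U.card + 2) U = 3)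
          else 0) := by
        intro s
        rcases ind_cases (sel w s U) with ⟨h, _⟩ | ⟨h, hs⟩
        · rw [h]; exact Nat.zero_le _
        · rw [h]
          rcases hs with hs | ⟨h1, h2⟩ | ⟨h1, h2, h3⟩ | ⟨h1, h2⟩ | ⟨h1, h2, h3⟩
          · omega
          · rw [if_pos h1, ind_true ⟨⟨ha1, hb1⟩, by omega⟩]
          · omega
          · omega
          · rw [if_neg (by omega), if_pos h1,
              ind_true ⟨⟨⟨⟨by omega, ha1⟩, hb1⟩, by omega⟩, by omega⟩]
      have g0 := hA 0
      have g1 := hA 1
      have g2 := hA 2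
      have g3 := hA 3
      rcases (show U.card % 4 = 0 ∨ U.card % 4 = 1 ∨ U.card % 4 = 2 ∨ U.card % 4 = 3 by omega)
        with hx | hx | hx | hx
      · rw [if_pos (by omega)] at g0
        rw [if_neg (by omega), if_neg (by omega)] at g1
        rw [if_neg (by omega), if_neg (by omega)] at g2
        rw [if_neg (by omega), if_pos (by omega)] at g3
        omega
      · rw [if_neg (by omega), if_neg (by omega)] at g0
        rw [if_neg (by omega), if_neg (by omega)] at g1
        rw [if_neg (by omega), if_pos (by omega)] at g2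
        rw [if_pos (by omega)] at g3
        omega
      · rw [if_neg (by omega), if_neg (by omega)] at g0
        rw [if_neg (by omega), if_pos (by omega)] at g1
        rw [if_pos (by omega)] at g2
        rw [if_neg (by omega), if_neg (by omega)] at g3
        omega
      · rw [if_neg (by omega), if_pos (by omega)] at g0
        rw [if_pos (by omega)] at g1
        rw [if_neg (by omega), if_neg (by omega)] at g2
        rw [if_neg (by omega), if_neg (by omega)] at g3
        omega
  · have ha0 : kap w (U.card - 1) U = 0 := by omega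
    have hd0 : kap w (U.card - 2) U = 0 := by omega
    by_cases hb : kap w U.card U = 1
    · have hA : ∀ s, ind (sel w s U) ≤
          (if (s + U.card) % 4 = 0 then
            ind ((kap w (U.card - 1) U = 0 ∧ kap w U.card U = 1) ∧ kap w (U.card + 1) U = 1)
          else if (s + U.card) % 4 = 1 then
            ind ((kap w (U.card - 1) U = 0 ∧ kap w U.card U = 1) ∧ kap w (U.card + 1) U = 1)
          else if (s + U.card) % 4 = 2 then 1 else 0) := by
        intro s
        rcases ind_cases (sel w s U) with ⟨h, _⟩ | ⟨h, hs⟩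
        · rw [h]; exact Nat.zero_le _
        · rw [h]
          rcases hs with hs | ⟨h1, h2⟩ | ⟨h1, h2, h3⟩ | ⟨h1, h2⟩ | ⟨h1, h2, h3⟩
          · omega
          · rw [if_pos h1, ind_true ⟨⟨ha0, hb⟩, by omega⟩]
          · rw [if_neg (by omega), if_pos h1, ind_true ⟨⟨ha0, hb⟩, by omega⟩]
          · rw [if_neg (by omega), if_neg (by omega), if_pos h1]
          · omega
      have g0 := hA 0
      have g1 := hA 1
      have g2 := hA 2
      have g3 := hA 3
      rw [ind_true (⟨ha0, hb⟩ : kap w (U.card - 1) U = 0 ∧ kap w U.card U = 1)]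
      rcases (show U.card % 4 = 0 ∨ U.card % 4 = 1 ∨ U.card % 4 = 2 ∨ U.card % 4 = 3 by omega)
        with hx | hx | hx | hx
      · rw [if_pos (by omega)] at g0
        rw [if_neg (by omega), if_pos (by omega)] at g1
        rw [if_neg (by omega), if_neg (by omega), if_pos (by omega)] at g2
        rw [if_neg (by omega), if_neg (by omega), if_neg (by omega)] at g3
        omega
      · rw [if_neg (by omega), if_pos (by omega)] at g0
        rw [if_neg (by omega), if_neg (by omega), if_pos (by omega)] at g1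
        rw [if_neg (by omega), if_neg (by omega), if_neg (by omega)] at g2
        rw [if_pos (by omega)] at g3
        omega
      · rw [if_neg (by omega), if_neg (by omega), if_pos (by omega)] at g0
        rw [if_neg (by omega), if_neg (by omega), if_neg (by omega)] at g1
        rw [if_pos (by omega)] at g2
        rw [if_neg (by omega), if_pos (by omega)] at g3
        omega
      · rw [if_neg (by omega), if_neg (by omega), if_neg (by omega)] at g0
        rw [if_pos (by omega)] at g1
        rw [if_neg (by omega), if_pos (by omega)] at g2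
        rw [if_neg (by omega), if_neg (by omega), if_pos (by omega)] at g3
        omega
    · have hA : ∀ s, ind (sel w s U) = 0 := by
        intro s
        rcases ind_cases (sel w s U) with ⟨h, _⟩ | ⟨h, hs⟩
        · exact h
        · exfalso
          rcases hs with hs | ⟨h1, h2⟩ | ⟨h1, h2, h3⟩ | ⟨h1, h2⟩ | ⟨h1, h2, h3⟩ <;> omega
      rw [hA, hA, hA, hA]; omega

/-- invariance of the events under the change of a later column -/
theorem kap_upd (w : Fin N → Fin n → F) {t : ℕ} (ht : t < N) (y : Fin n → F) (U : Finset (Fin n))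
    (s : ℕ) (hs : s ≤ t) : kap (Function.update w ⟨t, ht⟩ y) s U = kap w s U :=
  kap_update w ht y hs U

theorem pr_three_quarters (hF : Fintype.card F = 4) (U : Finset (Fin n)) (hN : U.card < N)
    (E : (Fin N → Fin n → F) → Prop)
    (hinv : ∀ w y, E (Function.update w ⟨U.card, hN⟩ y) ↔ E w)
    (hval : ∀ w, E w → kap w U.card U = 1) :
    pr (fun w => E w ∧ kap w (U.card + 1) U = 1) ≤ 3 / 4 * pr E := by
  have h1 := pr_dep hN U 1 E hinv hval
  have h2 := pr_split E (fun w => kap w (U.card + 1) U = 1 + 1)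
  have h3 : pr (fun w => E w ∧ kap w (U.card + 1) U = 1) ≤
      pr (fun w => E w ∧ ¬ kap w (U.card + 1) U = 1 + 1) :=
    pr_mono fun w hw => ⟨hw.1, by rw [hw.2]; norm_num⟩
  rw [hF] at h1
  push_cast at h1
  have e : (4 : ℝ) ^ U.card / 4 ^ (U.card + 1) = 1 / 4 := by
    rw [pow_succ]; field_simp
  rw [e] at h1
  linarith

theorem expect (hF : Fintype.card F = 4) (U : Finset (Fin n)) (hN : U.card + 2 ≤ N) :
    ((∑ w : Fin N → Fin n → F, (ind (sel w 0 U) + ind (sel w 1 U) + ind (sel w 2 U) +
      ind (sel w 3 U)) : ℕ) : ℝ) ≤ 0.6552 * Fintype.card (Fin N → Fin n → F) := by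
  have h0 : (∑ w : Fin N → Fin n → F, (ind (sel w 0 U) + ind (sel w 1 U) + ind (sel w 2 U) +
      ind (sel w 3 U))) ≤ ∑ w : Fin N → Fin n → F, (4 * ind (2 ≤ kap w (U.card - 1) U) +
      4 * ind (kap w (U.card - 1) U = 1 ∧ kap w U.card U = 2) +
      ind ((kap w (U.card - 1) U = 1 ∧ kap w U.card U = 1) ∧ kap w (U.card + 1) U = 1) +
      ind (kap w (U.card - 1) U = 0 ∧ kap w U.card U = 1) +
      2 * ind ((kap w (U.card - 1) U = 0 ∧ kap w U.card U = 1) ∧ kap w (U.card + 1) U = 1) +
      ind ((((kap w (U.card - 2) U = 1 ∧ kap w (U.card - 1) U = 1) ∧ kap w U.card U = 1) ∧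
        kap w (U.card + 1) U = 2) ∧ kap w (U.card + 2) U = 3)) :=
    Finset.sum_le_sum fun w _ => pointwise w U hN
  have h1 : ((∑ w : Fin N → Fin n → F, (ind (sel w 0 U) + ind (sel w 1 U) + ind (sel w 2 U) +
      ind (sel w 3 U)) : ℕ) : ℝ) ≤ ((∑ w : Fin N → Fin n → F,
      (4 * ind (2 ≤ kap w (U.card - 1) U) +
      4 * ind (kap w (U.card - 1) U = 1 ∧ kap w U.card U = 2) +
      ind ((kap w (U.card - 1) U = 1 ∧ kap w U.card U = 1) ∧ kap w (U.card + 1) U = 1) +
      ind (kap w (U.card - 1) U = 0 ∧ kap w U.card U = 1) +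
      2 * ind ((kap w (U.card - 1) U = 0 ∧ kap w U.card U = 1) ∧ kap w (U.card + 1) U = 1) +
      ind ((((kap w (U.card - 2) U = 1 ∧ kap w (U.card - 1) U = 1) ∧ kap w U.card U = 1) ∧
        kap w (U.card + 1) U = 2) ∧ kap w (U.card + 2) U = 3)) : ℕ) : ℝ) := by
    exact_mod_cast h0
  refine h1.trans ?_
  simp only [Finset.sum_add_distrib, ← Finset.mul_sum]
  push_cast [Nat.cast_add, Nat.cast_mul]
  have hs := fun E : (Fin N → Fin n → F) → Prop => sum_ind E
  simp only [Nat.cast_sum] at hs
  rw [hs, hs, hs, hs, hs, hs]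
  have hO := omega_pos (F := F) (N := N) (n := n)
  set O : ℝ := (Fintype.card (Fin N → Fin n → F) : ℝ) with hOdef
  -- reduce to an inequality between proportions
  suffices hsuff : 4 * pr (fun w : Fin N → Fin n → F => 2 ≤ kap w (U.card - 1) U) +
      4 * pr (fun w : Fin N → Fin n → F => kap w (U.card - 1) U = 1 ∧ kap w U.card U = 2) +
      pr (fun w : Fin N → Fin n → F =>
        (kap w (U.card - 1) U = 1 ∧ kap w U.card U = 1) ∧ kap w (U.card + 1) U = 1) +
      pr (fun w : Fin N → Fin n → F => kap w (U.card - 1) U = 0 ∧ kap w U.card U = 1) +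
      2 * pr (fun w : Fin N → Fin n → F =>
        (kap w (U.card - 1) U = 0 ∧ kap w U.card U = 1) ∧ kap w (U.card + 1) U = 1) +
      pr (fun w : Fin N → Fin n → F =>
        (((kap w (U.card - 2) U = 1 ∧ kap w (U.card - 1) U = 1) ∧ kap w U.card U = 1) ∧
        kap w (U.card + 1) U = 2) ∧ kap w (U.card + 2) U = 3) ≤ 0.6552 by
    have := mul_le_mul_of_nonneg_right hsuff hO.le
    linarith
  rcases Nat.eq_zero_or_pos U.card with hx | hx
  · -- the empty set
    have z : ∀ w : Fin N → Fin n → F, kap w 0 U = 0 := fun w => by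
      have := kap_le w 0 U; omega
    rw [hx]
    rw [pr_false (fun w h => by have := z w; simp only [Nat.zero_sub] at h; omega),
      pr_false (fun w h => by have := z w; simp only [Nat.zero_sub] at h; omega),
      pr_false (fun w h => by have := z w; simp only [Nat.zero_sub] at h; omega),
      pr_false (fun w h => by have := z w; simp only [Nat.zero_sub] at h; omega),
      pr_false (fun w h => by have := z w; simp only [Nat.zero_sub] at h; omega),
      pr_false (fun w h => by have := z w; simp only [Nat.zero_sub] at h; omega)]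
    norm_num
  · obtain ⟨t, ht⟩ : ∃ t, U.card = t + 1 := ⟨U.card - 1, by omega⟩
    have htN : t < N := by omega
    have hxN : U.card < N := by omega
    have hx1N : U.card + 1 < N := by omega
    have e1 : U.card - 1 = t := by omega
    rw [e1]
    -- the basic proportions
    have p1le : pr (fun w : Fin N → Fin n → F => kap w t U = 1) ≤ 1 / 12 := by
      refine (pr_mono (fun w (hw : kap w t U = 1) => le_of_eq hw.symm)).trans
        ((B1 hF U t htN.le).trans (le_of_eq ?_))
      rw [ht, pow_succ]; field_simp; norm_num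
    have p2le : pr (fun w : Fin N → Fin n → F => 2 ≤ kap w t U) ≤ 1 / 2880 := by
      refine (B2 hF U t htN.le).trans (le_of_eq ?_)
      rw [ht, pow_succ]; field_simp; norm_num
    have pdle : pr (fun w : Fin N → Fin n → F => 1 ≤ kap w (U.card - 2) U) ≤ 1 / 48 := by
      rcases Nat.eq_zero_or_pos t with h0 | h0
      · have e2 : U.card - 2 = 0 := by omega
        rw [e2, pr_false (fun w hw => by have := kap_le w 0 U; omega)]
        norm_num
      · obtain ⟨r, hr⟩ : ∃ r, U.card = r + 2 := ⟨U.card - 2, by omega⟩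
        have e2 : U.card - 2 = r := by omega
        rw [e2]
        refine (B1 hF U r (by omega)).trans (le_of_eq ?_)
        rw [hr, pow_add]; field_simp; norm_num
    have psum : pr (fun w : Fin N → Fin n → F => kap w t U = 0) +
        pr (fun w : Fin N → Fin n → F => kap w t U = 1) +
        pr (fun w : Fin N → Fin n → F => 2 ≤ kap w t U) ≤ 1 := by
      have f0 := pr_true (F := F) (N := N) (n := n)
      have f1 := pr_split (fun _ : Fin N → Fin n → F => True) (fun w => 2 ≤ kap w t U)
      have f2 := pr_split (fun w : Fin N → Fin n → F => True ∧ ¬ 2 ≤ kap w t U)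
        (fun w => kap w t U = 1)
      have f3 : pr (fun w : Fin N → Fin n → F => 2 ≤ kap w t U) ≤
          pr (fun w : Fin N → Fin n → F => True ∧ 2 ≤ kap w t U) :=
        pr_mono fun w hw => ⟨trivial, hw⟩
      have f4 : pr (fun w : Fin N → Fin n → F => kap w t U = 1) ≤
          pr (fun w : Fin N → Fin n → F => (True ∧ ¬ 2 ≤ kap w t U) ∧ kap w t U = 1) :=
        pr_mono fun w (hw : kap w t U = 1) => ⟨⟨trivial, by omega⟩, hw⟩
      have f5 : pr (fun w : Fin N → Fin n → F => kap w t U = 0) ≤
          pr (fun w : Fin N → Fin n → F => (True ∧ ¬ 2 ≤ kap w t U) ∧ ¬ kap w t U = 1) :=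
        pr_mono fun w (hw : kap w t U = 0) => ⟨⟨trivial, by omega⟩, by omega⟩
      linarith
    have r1 : (4 : ℝ) ^ t / 4 ^ (U.card + 1) = 1 / 16 := by
      rw [ht]; rw [pow_add, pow_succ]; field_simp; norm_num
    have r0 : (4 : ℝ) ^ t / 4 ^ (U.card + 0) = 1 / 4 := by
      rw [ht]; rw [add_zero, pow_succ]; field_simp
    have rx : (4 : ℝ) ^ U.card / 4 ^ (U.card + 1) = 1 / 4 := by
      rw [pow_succ]; field_simp
    have rx1 : (4 : ℝ) ^ (U.card + 1) / 4 ^ (U.card + 2) = 1 / 4 := by
      rw [show U.card + 2 = (U.card + 1) + 1 by ring, pow_succ (4 : ℝ) (U.card + 1)]; field_simp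
    -- a = 1, b = 2
    have q1 := pr_dep htN U 1 (fun w : Fin N → Fin n → F => kap w t U = 1)
      (by intro w y; rw [kap_upd w htN y U t le_rfl]) (fun w hw => hw)
    rw [← ht, hF] at q1
    push_cast at q1
    rw [r1] at q1
    norm_num at q1
    -- a = 0, b = 1
    have q2 := pr_dep htN U 0 (fun w : Fin N → Fin n → F => kap w t U = 0)
      (by intro w y; rw [kap_upd w htN y U t le_rfl]) (fun w hw => hw)
    rw [← ht, hF] at q2
    push_cast at q2
    rw [r0] at q2
    norm_num at q2
    -- a = 0, b = 1, c = 1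
    have q3 := pr_three_quarters hF U hxN
      (fun w : Fin N → Fin n → F => kap w t U = 0 ∧ kap w U.card U = 1)
      (by intro w y; rw [kap_upd w hxN y U t (by omega), kap_upd w hxN y U U.card le_rfl])
      (fun w hw => hw.2)
    -- a = 1, b = 1, c = 1
    have q4 := pr_three_quarters hF U hxN
      (fun w : Fin N → Fin n → F => kap w t U = 1 ∧ kap w U.card U = 1)
      (by intro w y; rw [kap_upd w hxN y U t (by omega), kap_upd w hxN y U U.card le_rfl])
      (fun w hw => hw.2)
    have q4' : pr (fun w : Fin N → Fin n → F => kap w t U = 1 ∧ kap w U.card U = 1) ≤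
        15 / 16 * pr (fun w : Fin N → Fin n → F => kap w t U = 1) := by
      have g1 := pr_split (fun w : Fin N → Fin n → F => kap w t U = 1)
        (fun w => kap w U.card U = 2)
      have g2 : pr (fun w : Fin N → Fin n → F => kap w t U = 1 ∧ kap w U.card U = 1) ≤
          pr (fun w : Fin N → Fin n → F => kap w t U = 1 ∧ ¬ kap w U.card U = 2) :=
        pr_mono fun w hw => ⟨hw.1, by rw [hw.2]; norm_num⟩
      linarith
    -- the last event
    have q5 := pr_dep hx1N U 2 (fun w : Fin N → Fin n → F =>
      ((kap w (U.card - 2) U = 1 ∧ kap w t U = 1) ∧ kap w U.card U = 1) ∧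
        kap w (U.card + 1) U = 2)
      (by intro w y; rw [kap_upd w hx1N y U _ (by omega), kap_upd w hx1N y U t (by omega),
            kap_upd w hx1N y U U.card (by omega), kap_upd w hx1N y U (U.card + 1) le_rfl])
      (fun w hw => hw.2)
    have q6 := pr_dep hxN U 1 (fun w : Fin N → Fin n → F =>
      (kap w (U.card - 2) U = 1 ∧ kap w t U = 1) ∧ kap w U.card U = 1)
      (by intro w y; rw [kap_upd w hxN y U _ (by omega), kap_upd w hxN y U t (by omega),
            kap_upd w hxN y U U.card le_rfl])
      (fun w hw => hw.2)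
    rw [hF] at q5 q6
    push_cast at q5 q6
    rw [rx1] at q5
    rw [rx] at q6
    norm_num at q5 q6
    have q7 : pr (fun w : Fin N → Fin n → F =>
        (kap w (U.card - 2) U = 1 ∧ kap w t U = 1) ∧ kap w U.card U = 1) ≤
        pr (fun w : Fin N → Fin n → F => 1 ≤ kap w (U.card - 2) U) :=
      pr_mono fun w hw => le_of_eq hw.1.1.symm
    have n1 := pr_nonneg (fun w : Fin N → Fin n → F => kap w t U = 1)
    have n2 := pr_nonneg (fun w : Fin N → Fin n → F => 2 ≤ kap w t U)
    have n0 := pr_nonneg (fun w : Fin N → Fin n → F => kap w t U = 0)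
    rw [q1, q2, q5, q6]
    rw [q2] at q3
    norm_num
    linarith

end prob

end Pool.Agent.Helper858.Cube5
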