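import Mathlib
import Pool.Agent.Helper858.Cube5.Prob

set_option autoImplicit false

namespace Pool.Agent.Helper858.Cube5

open Finset Module

section final

set_option linter.unusedSectionVars false

variable {F : Type*} [Field F] [Fintype F] [DecidableEq F] {N n : ℕ}

/-- every five-dimensional subcube `[S, S ∪ D]` contains a selected set -/
theorem sel_hits (hF : Fintype.card F = 4) (w : Fin N → Fin n → F) (s : ℕ)
    (hN : n + 1 ≤ N) (S : Finset (Fin n)) (e : Fin 5 ↪ Fin n) (hd : ∀ i, e i ∉ S) :
    ∃ T : Finset (Fin 5), sel w s (cub S e T) := by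
  have hcard : S.card + 5 ≤ n := by
    have h1 := cub_card S e hd univ
    have h2 := card_le_univ (cub S e univ)
    rw [card_univ, Fintype.card_fin] at h1
    rw [Fintype.card_fin] at h2
    omega
  have hK := kap_isKap w S e hF (by omega) hd
  obtain ⟨T, hT⟩ := kap_hit hK (s + S.card)
  refine ⟨T, ?_⟩
  have hc := cub_card S e hd T
  have g0 : ((S.card : ℤ) + (T.card : ℤ)).toNat = (cub S e T).card := by omega
  have g1 : ((S.card : ℤ) + ((T.card : ℤ) + 1)).toNat = (cub S e T).card + 1 := by omega
  have g2 : ((S.card : ℤ) + ((T.card : ℤ) - 1)).toNat = (cub S e T).card - 1 := by omega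
  have g3 : ((S.card : ℤ) + ((T.card : ℤ) - 2)).toNat = (cub S e T).card - 2 := by omega
  have g4 : ((S.card : ℤ) + ((T.card : ℤ) + 2)).toNat = (cub S e T).card + 2 := by omega
  have g5 : s + S.card + T.card = s + (cub S e T).card := by omega
  unfold Unhit at hT
  simp only [g0, g1, g2, g3, g4, g5] at hT
  unfold sel
  by_contra hcon
  push Not at hcon
  obtain ⟨c0, c1, c2, c3, c4⟩ := hcon
  apply hT
  refine ⟨by omega, ?_, ?_, ?_, ?_⟩
  · intro h hh
    exact c1 h (by exact_mod_cast hh)
  · rintro h ⟨h1, h2⟩
    exact c2 h (fun hh => h1 (by exact_mod_cast hh)) (by exact_mod_cast h2)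
  · intro h
    exact_mod_cast c3 h
  · rintro h ⟨h1, h2⟩
    have := c4 h (by exact_mod_cast h1)
    omega

/-- averaging: a good system of columns exists -/
theorem exists_sel (hF : Fintype.card F = 4) (n : ℕ) :
    ∃ (w : Fin (n + 2) → Fin n → F) (s : ℕ),
      ((∑ U : Finset (Fin n), ind (sel w s U) : ℕ) : ℝ) ≤ 0.1638 * 2 ^ n := by
  by_contra hcon
  push Not at hcon
  have h1 : ∀ U : Finset (Fin n), ((∑ w : Fin (n + 2) → Fin n → F,
      (ind (sel w 0 U) + ind (sel w 1 U) + ind (sel w 2 U) + ind (sel w 3 U)) : ℕ) : ℝ) ≤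
      0.6552 * Fintype.card (Fin (n + 2) → Fin n → F) := by
    intro U
    apply expect hF U
    have := card_le_univ U
    rw [Fintype.card_fin] at this
    omega
  have h2 : ((∑ U : Finset (Fin n), ∑ w : Fin (n + 2) → Fin n → F,
      (ind (sel w 0 U) + ind (sel w 1 U) + ind (sel w 2 U) + ind (sel w 3 U)) : ℕ) : ℝ) ≤
      2 ^ n * (0.6552 * Fintype.card (Fin (n + 2) → Fin n → F)) := by
    push_cast
    have h3 := Finset.sum_le_sum (s := (univ : Finset (Finset (Fin n)))) (fun U _ => h1 U)
    rw [Finset.sum_const, card_univ, Fintype.card_finset, Fintype.card_fin, nsmul_eq_mul] at h3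
    push_cast at h3
    exact h3
  rw [Finset.sum_comm] at h2
  have h4 : ∀ w : Fin (n + 2) → Fin n → F, (0.6552 * 2 ^ n : ℝ) <
      ((∑ U : Finset (Fin n), (ind (sel w 0 U) + ind (sel w 1 U) + ind (sel w 2 U) +
        ind (sel w 3 U)) : ℕ) : ℝ) := by
    intro w
    rw [Finset.sum_add_distrib, Finset.sum_add_distrib, Finset.sum_add_distrib]
    push_cast
    have a0 := hcon w 0
    have a1 := hcon w 1
    have a2 := hcon w 2
    have a3 := hcon w 3
    push_cast at a0 a1 a2 a3
    linarith
  have h5 : (∑ w : Fin (n + 2) → Fin n → F, (0.6552 * 2 ^ n : ℝ)) <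
      ∑ w : Fin (n + 2) → Fin n → F,
      ((∑ U : Finset (Fin n), (ind (sel w 0 U) + ind (sel w 1 U) + ind (sel w 2 U) +
        ind (sel w 3 U)) : ℕ) : ℝ) :=
    Finset.sum_lt_sum_of_nonempty univ_nonempty (fun w _ => h4 w)
  rw [Finset.sum_const, card_univ, nsmul_eq_mul] at h5
  push_cast at h2 h5
  linarith

end final

/-! ### the statement -/

/-- The set `S` of vertices of the cube `{0,1}^n` meets every `d`-dimensional subcube: a subcube
is given by its set `J` of `d` free coordinates and by the values `b i` of the coordinates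
`i ∉ J`. -/
def MeetsAll (d n : ℕ) (S : Finset (Fin n → Bool)) : Prop :=
  ∀ J : Finset (Fin n), J.card = d → ∀ b : Fin n → Bool, ∃ x ∈ S, ∀ i, i ∉ J → x i = b i

/-- `f_d(n)`: the minimum size of a set of vertices of `{0,1}^n` that meets every
`d`-dimensional subcube. -/
noncomputable def f (d n : ℕ) : ℕ :=
  sInf {k : ℕ | ∃ S : Finset (Fin n → Bool), MeetsAll d n S ∧ S.card = k}

theorem f_spec (d n : ℕ) : ∃ S : Finset (Fin n → Bool), MeetsAll d n S ∧ S.card = f d n := by
  have hne : {k : ℕ | ∃ S : Finset (Fin n → Bool), MeetsAll d n S ∧ S.card = k}.Nonempty :=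
    ⟨_, univ, fun J _ b => ⟨b, mem_univ _, fun i _ => rfl⟩, rfl⟩
  exact Nat.sInf_mem hne

theorem f_le {d n : ℕ} {S : Finset (Fin n → Bool)} (h : MeetsAll d n S) : f d n ≤ S.card :=
  Nat.sInf_le ⟨S, h, rfl⟩

theorem f_double (d n : ℕ) : 2 * f d n ≤ f d (n + 1) := by
  classical
  obtain ⟨S, hS, hc⟩ := f_spec d (n + 1)
  have key : ∀ v : Bool, MeetsAll d n (univ.filter (fun x : Fin n → Bool =>
      (Fin.snoc x v : Fin (n + 1) → Bool) ∈ S)) := by
    intro v J hJ b
    obtain ⟨x, hx, hxb⟩ := hS (J.map Fin.castSuccEmb) (by rw [card_map, hJ])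
      (Fin.snoc b v : Fin (n + 1) → Bool)
    refine ⟨fun i => x i.castSucc, ?_, ?_⟩
    · rw [mem_filter]
      refine ⟨mem_univ _, ?_⟩
      have : (Fin.snoc (fun i => x i.castSucc) v : Fin (n + 1) → Bool) = x := by
        funext i
        refine Fin.lastCases ?_ (fun j => ?_) i
        · rw [Fin.snoc_last]
          have := hxb (Fin.last n) (by
            simp only [mem_map, Fin.coe_castSuccEmb, not_exists, not_and]
            intro j _ hj
            exact absurd hj (Fin.castSucc_lt_last j).ne)
          rw [this, Fin.snoc_last]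
        · rw [Fin.snoc_castSucc]
      rw [this]; exact hx
    · intro i hi
      have := hxb i.castSucc (by
        simp only [mem_map, Fin.coe_castSuccEmb, not_exists, not_and]
        intro j hj hij
        have : j = i := Fin.castSucc_injective _ hij
        exact hi (this ▸ hj))
      rw [Fin.snoc_castSucc] at this
      exact this
  have h0 := f_le (key false)
  have h1 := f_le (key true)
  have h2 : (univ.filter (fun x : Fin n → Bool =>
      (Fin.snoc x false : Fin (n + 1) → Bool) ∈ S)).card +
      (univ.filter (fun x : Fin n → Bool =>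
      (Fin.snoc x true : Fin (n + 1) → Bool) ∈ S)).card ≤ S.card := by
    rw [← card_image_of_injective (univ.filter (fun x : Fin n → Bool =>
      (Fin.snoc x false : Fin (n + 1) → Bool) ∈ S))
      (f := fun x : Fin n → Bool => (Fin.snoc x false : Fin (n + 1) → Bool))
      (fun a b hab => (Fin.snoc_injective2 hab).1),
      ← card_image_of_injective (univ.filter (fun x : Fin n → Bool =>
      (Fin.snoc x true : Fin (n + 1) → Bool) ∈ S))
      (f := fun x : Fin n → Bool => (Fin.snoc x true : Fin (n + 1) → Bool))
      (fun a b hab => (Fin.snoc_injective2 hab).1), ← card_union_of_disjoint]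
    · apply card_le_card
      intro y hy
      rcases mem_union.1 hy with hy | hy
      · obtain ⟨x, hx, rfl⟩ := mem_image.1 hy
        exact (mem_filter.1 hx).2
      · obtain ⟨x, hx, rfl⟩ := mem_image.1 hy
        exact (mem_filter.1 hx).2
    · rw [disjoint_left]
      intro y hy hy'
      obtain ⟨x, _, hx⟩ := mem_image.1 hy
      obtain ⟨x', _, hx'⟩ := mem_image.1 hy'
      have h3 := congrFun (hx.trans hx'.symm) (Fin.last n)
      simp only [Fin.snoc_last] at h3
      exact absurd h3 (by decide)
  omega

theorem f5_le (n : ℕ) : (f 5 n : ℝ) ≤ 0.1638 * 2 ^ n := by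
  classical
  have : Fintype (GaloisField 2 2) := Fintype.ofFinite _
  have hF : Fintype.card (GaloisField 2 2) = 4 := by
    have := GaloisField.card 2 2 (by norm_num)
    rw [Nat.card_eq_fintype_card] at this
    rw [this]; norm_num
  obtain ⟨w, s, hw⟩ := exists_sel hF n
  set S : Finset (Fin n → Bool) :=
    univ.filter (fun x => sel w s (univ.filter (fun i => x i = true))) with hS
  have hmeet : MeetsAll 5 n S := by
    intro J hJ b
    set S₀ : Finset (Fin n) := univ.filter (fun i => i ∉ J ∧ b i = true) with hS₀
    let e : Fin 5 ↪ Fin n := ((J.orderIsoOfFin hJ).toEquiv.toEmbedding).trans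
      (Function.Embedding.subtype _)
    have he : ∀ i, e i ∈ J := fun i => (J.orderIsoOfFin hJ i).2
    have hd : ∀ i, e i ∉ S₀ := by
      intro i hi
      rw [hS₀, mem_filter] at hi
      exact hi.2.1 (he i)
    obtain ⟨T, hT⟩ := sel_hits hF w s (by omega) S₀ e hd
    refine ⟨fun i => decide (i ∈ cub S₀ e T), ?_, ?_⟩
    · rw [hS, mem_filter]
      refine ⟨mem_univ _, ?_⟩
      have : (univ.filter (fun i => decide (i ∈ cub S₀ e T) = true)) = cub S₀ e T := by
        ext i; simp
      rw [this]
      exact hT
    · intro i hi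
      by_cases hb : b i = true
      · rw [hb]
        simp only [decide_eq_true_eq]
        unfold cub
        apply mem_union_left
        rw [hS₀, mem_filter]
        exact ⟨mem_univ _, hi, hb⟩
      · have hb' : b i = false := by simpa using hb
        rw [hb']
        simp only [decide_eq_false_iff_not]
        unfold cub
        intro hmem
        rcases mem_union.1 hmem with h | h
        · rw [hS₀, mem_filter] at h
          exact hb h.2.2
        · obtain ⟨k, _, rfl⟩ := mem_map.1 h
          exact hi (he k)
  have h1 := f_le hmeet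
  have h2 : S.card = ∑ U : Finset (Fin n), ind (sel w s U) := by
    have h3 : S.card = (univ.filter (fun U : Finset (Fin n) => sel w s U)).card := by
      apply card_bij (fun x _ => univ.filter (fun i => x i = true))
      · intro x hx
        rw [hS, mem_filter] at hx
        rw [mem_filter]
        exact ⟨mem_univ _, hx.2⟩
      · intro x _ y _ hxy
        funext i
        have := congrArg (fun A : Finset (Fin n) => i ∈ A) hxy
        simp only [mem_filter, mem_univ, true_and, eq_iff_iff] at this
        by_cases hx : x i = true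
        · rw [hx, this.1 hx]
        · have hy : ¬ y i = true := fun hh => hx (this.2 hh)
          rw [Bool.not_eq_true] at hx hy
          rw [hx, hy]
      · intro U hU
        refine ⟨fun i => decide (i ∈ U), ?_, ?_⟩
        · rw [hS, mem_filter]
          refine ⟨mem_univ _, ?_⟩
          have : (univ.filter (fun i => decide (i ∈ U) = true)) = U := by ext i; simp
          rw [this]
          exact (mem_filter.1 hU).2
        · ext i; simp
    rw [h3, Finset.card_filter]
    apply Finset.sum_congr rfl
    intro U _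
    unfold ind
    congr
  rw [h2] at h1
  calc (f 5 n : ℝ) ≤ ((∑ U : Finset (Fin n), ind (sel w s U) : ℕ) : ℝ) := by exact_mod_cast h1
    _ ≤ _ := hw

theorem ratio_mono (d : ℕ) : Monotone (fun n : ℕ => (f d n : ℝ) / 2 ^ n) := by
  apply monotone_nat_of_le_succ
  intro n
  have h := f_double d n
  have h' : (2 : ℝ) * f d n ≤ f d (n + 1) := by exact_mod_cast h
  rw [div_le_div_iff₀ (by positivity) (by positivity), pow_succ]
  nlinarith [pow_pos (show (0 : ℝ) < 2 by norm_num) n]

end Pool.Agent.Helper858.Cube5
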